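import Pool.Agent.X127.HY.Slow

/-! # The conditional inequality at finite frequency -/

set_option autoImplicit false
open MeasureTheory Filter Topology Metric
open scoped ContDiff ENNReal

namespace Pool.Agent.X127.HY

open Pool.Agent.TH298.Sch (X er et norm_X X_cont)
open Pool.Agent.X127.PB (lp cu cu_int cu_cont jen)
open Pool.Agent.X127.SW (conv_cont)

noncomputable section

lemma finK {K : Set ℂ} (hKc : IsCompact K) (hKH : K ⊆ HH) : IsFiniteMeasure (hm.restrict K) := by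
  refine ⟨?_⟩
  rw [Measure.restrict_apply_univ]
  unfold hm
  rw [withDensity_apply _ hKc.measurableSet]
  have ck : ContinuousOn (fun z : ℂ => 1 / z.im ^ 2) K :=
    continuousOn_const.div (Complex.continuous_im.continuousOn.pow 2) fun z hz => by
      have : 0 < z.im := hKH hz
      positivity
  have i := ck.integrableOn_compact hKc (μ := volume)
  exact i.lintegral_lt_top

lemma intK {K : Set ℂ} (hKc : IsCompact K) (hKH : K ⊆ HH) {k : ℂ → ℝ} (hk : ContinuousOn k K) :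
    Integrable k (hm.restrict K) := by
  have := finK hKc hKH
  obtain ⟨C, hC⟩ := hKc.exists_bound_of_continuousOn hk
  exact Integrable.of_bound (hk.aestronglyMeasurable hKc.measurableSet) C
    ((ae_restrict_iff' hKc.measurableSet).2 (ae_of_all _ hC))

/-- averaging, real form -/
lemma avgR {Q Q' : Set ℂ} (hQ : IsCompact Q) (hQ' : IsCompact Q') (QH : Q' ⊆ HH) (QQ : Q ⊆ Q')
    {r : ℝ} (r0 : 0 < r) (r1 : r < 1) (hK : ∀ z ∈ Q, ∀ w, ‖w‖ ≤ r → pt z w ∈ Q')
    {F G : ℂ → ℝ} (F0 : ∀ z ∈ Q, 0 ≤ F z) (G0 : ∀ z ∈ Q', 0 ≤ G z) (cF : ContinuousOn F Q)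
    (cG : ContinuousOn G Q') (h : ∀ z ∈ Q, F z ≤ ∫ θ, G (pt z (X r θ)) ∂cu) :
    ∫ z in Q, F z ∂hm ≤ ∫ z in Q', G z ∂hm := by
  have A := avgC hQ.measurableSet hQ' r0 r1 hK (f := fun z => ENNReal.ofReal (F z)) G0 cG
    fun z hz => ENNReal.ofReal_le_ofReal (h z hz)
  have a1 : 0 ≤ᵐ[hm.restrict Q] F :=
    (ae_restrict_iff' hQ.measurableSet).2 (ae_of_all _ F0)
  have a2 : 0 ≤ᵐ[hm.restrict Q'] G :=
    (ae_restrict_iff' hQ'.measurableSet).2 (ae_of_all _ G0)
  rw [← ofReal_integral_eq_lintegral_ofReal (intK hQ (QQ.trans QH) cF) a1,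
    ← ofReal_integral_eq_lintegral_ofReal (intK hQ' QH cG) a2] at A
  exact (ENNReal.ofReal_le_ofReal_iff (setIntegral_nonneg hQ'.measurableSet G0)).1 A

theorem con1 {Ω Q Q' : Set ℂ} (hΩ : IsOpen Ω) (hH : Ω ⊆ HH) (hQ : IsCompact Q)
    (hQ' : IsCompact Q') (QQ : Q ⊆ Q') (QΩ : Q' ⊆ Ω) {ψ : ℂ → ℝ} (cψ : Continuous ψ)
    (ψ0 : ∀ z, 0 ≤ ψ z) {M0 : ℝ} (ψM : ∀ z, ψ z ≤ M0) (sψ : ∀ z, z ∉ Q → ψ z = 0)
    {t c r ε : ℝ} {f : ℂ → ℝ} (hf : Sol Ω t f) {k : ℕ} {s : Fin k → ℝ} {g : Fin k → ℂ → ℝ}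
    (hg : ∀ i, Sol Ω (s i) (g i))
    (r0 : 0 < r) (r1 : r ≤ 1 / 2) (hc : ph t r = -c)
    (hK : ∀ z ∈ Q, ∀ w, ‖w‖ ≤ r → pt z w ∈ Q' ∧ ψ z ≤ ψ (pt z w) + ε)
    (ε0 : 0 ≤ ε) (hβ : ∀ i, 1 / 2 ≤ ph (s i) r) {h : (Fin k → ℝ) → ℝ} {H L η : ℝ}
    (ch : Continuous h) (h0 : ∀ y, 0 ≤ h y) (hH' : ∀ y, h y ≤ H) (L0 : 0 ≤ L)
    (hL : ∀ y y', (h y - h y') ^ 2 ≤ L * ∑ i, (y i - y' i) ^ 2) (η0 : 0 < η)
    {Φ : ℝ → ℝ} (cΦ : ConvexOn ℝ Set.univ Φ) (Φ0 : ∀ x, 0 ≤ Φ x) :
    ∫ z in Q, ψ z * h (fun i => g i z) * Φ (c * f z) ∂hm ≤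
      (∫ z in Q, ψ z * h (fun i => g i z) * Φ (-f z) ∂hm) +
      ε * H * (∫ z in Q', Φ (-f z) ∂hm) + η * M0 * (∫ z in Q', Φ (-f z) ^ 2 ∂hm) +
      L / (4 * η) * ∑ i, ((2 - 2 * ph (s i) r) * (∫ z in Q, ψ z * g i z ^ 2 ∂hm) +
        ε * ∫ z in Q', g i z ^ 2 ∂hm) := by
  have pp := Real.pi_pos
  have r1' : r < 1 := by linarith
  have cc := conv_cont cΦ
  have M00 : 0 ≤ M0 := (ψ0 0).trans (ψM 0)
  have H0 : 0 ≤ H := (h0 0).trans (hH' 0)
  obtain ⟨κ, hκ⟩ : ∃ κ, κ = L / (4 * η) := ⟨_, rfl⟩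
  have κ0 : 0 ≤ κ := by rw [hκ]; positivity
  rw [← hκ]
  have nX : ∀ θ, ‖X r θ‖ ≤ r := fun θ => by rw [norm_X, abs_of_pos r0]
  have cgQ' : ∀ i, ContinuousOn (g i) Q' := fun i => (hg i).sm.continuousOn.mono QΩ
  have cgQ : ∀ i, ContinuousOn (g i) Q := fun i => (cgQ' i).mono QQ
  have cfQ' : ContinuousOn f Q' := hf.sm.continuousOn.mono QΩ
  have cfQ : ContinuousOn f Q := cfQ'.mono QQ
  have chQ' : ContinuousOn (fun z => h (fun i => g i z)) Q' :=
    ch.comp_continuousOn (continuousOn_pi.2 cgQ')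
  have chQ := chQ'.mono QQ
  obtain ⟨β, hβd⟩ : ∃ β : Fin k → ℝ, β = fun i => ph (s i) r := ⟨_, rfl⟩
  have hβ' : ∀ i, 1 / 2 ≤ β i := fun i => by rw [hβd]; exact hβ i
  -- the two functions
  obtain ⟨F, hF⟩ : ∃ F : ℂ → ℝ, F = fun z => ψ z * h (fun i => g i z) * Φ (c * f z) +
    κ * ∑ i, (2 * β i - 1) * (ψ z * g i z ^ 2) := ⟨_, rfl⟩
  obtain ⟨G, hG⟩ : ∃ G : ℂ → ℝ, G = fun z => (ψ z * h (fun i => g i z) * Φ (-f z) +
    ε * H * Φ (-f z) + η * M0 * Φ (-f z) ^ 2) +
    κ * ∑ i, (ψ z * g i z ^ 2 + ε * g i z ^ 2) := ⟨_, rfl⟩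
  have main : ∫ z in Q, F z ∂hm ≤ ∫ z in Q', G z ∂hm := by
    refine avgR hQ hQ' (QΩ.trans hH) QQ r0 r1' (fun z hz w hw => (hK z hz w hw).1) ?_ ?_ ?_ ?_ ?_
    · intro z _
      rw [hF]
      refine add_nonneg (mul_nonneg (mul_nonneg (ψ0 _) (h0 _)) (Φ0 _))
        (mul_nonneg κ0 (Finset.sum_nonneg fun i _ => mul_nonneg (by linarith [hβ' i])
          (mul_nonneg (ψ0 _) (sq_nonneg _))))
    · intro z _
      rw [hG]
      refine add_nonneg (add_nonneg (add_nonneg (mul_nonneg (mul_nonneg (ψ0 _) (h0 _)) (Φ0 _))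
        (mul_nonneg (mul_nonneg ε0 H0) (Φ0 _))) (mul_nonneg (mul_nonneg η0.le M00) (sq_nonneg _)))
        (mul_nonneg κ0 (Finset.sum_nonneg fun i _ => add_nonneg
          (mul_nonneg (ψ0 _) (sq_nonneg _)) (mul_nonneg ε0 (sq_nonneg _))))
    · rw [hF]
      refine ((cψ.continuousOn.mul chQ).mul (cc.comp_continuousOn
        (continuousOn_const.mul cfQ))).add (continuousOn_const.mul
        (continuousOn_finsetSum _ fun i _ => continuousOn_const.mul
          (cψ.continuousOn.mul ((cgQ i).pow 2))))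
    · rw [hG]
      have cf1 : ContinuousOn (fun z => Φ (-f z)) Q' := cc.comp_continuousOn cfQ'.neg
      exact ((((cψ.continuousOn.mul chQ').mul cf1).add (continuousOn_const.mul cf1)).add
        (continuousOn_const.mul (cf1.pow 2))).add (continuousOn_const.mul
        (continuousOn_finsetSum _ fun i _ => (cψ.continuousOn.mul ((cgQ' i).pow 2)).add
          (continuousOn_const.mul ((cgQ' i).pow 2))))
    · intro z hz
      have inQ : ∀ θ, pt z (X r θ) ∈ Q' := fun θ => (hK z hz _ (nX θ)).1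
      have inW : ∀ w, ‖w‖ ≤ r → pt z w ∈ Ω := fun w hw => QΩ (hK z hz w hw).1
      have zH : z ∈ HH := hH (QΩ (QQ hz))
      have cf : Continuous fun θ => f (pt z (X r θ)) := cfQ'.comp_continuous (cpt r0 r1' z) inQ
      have cg : ∀ i, Continuous fun θ => g i (pt z (X r θ)) := fun i =>
        (cgQ' i).comp_continuous (cpt r0 r1' z) inQ
      have cp : Continuous fun θ => ψ (pt z (X r θ)) := cψ.comp (cpt r0 r1' z)
      have chh : Continuous fun θ => h (fun i => g i (pt z (X r θ))) :=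
        chQ'.comp_continuous (cpt r0 r1' z) inQ
      have cP : Continuous fun θ => Φ (-f (pt z (X r θ))) := cc.comp cf.neg
      have mf := mv hΩ hH hf.sm hf.eq zH r0 r1' inW
      have j := jen cΦ (k := fun θ => -f (pt z (X r θ))) cf.neg
      have e : ∫ θ, -f (pt z (X r θ)) ∂cu = c * f z := by
        rw [cu_int, intervalIntegral.integral_neg, mf, hc]
        field_simp
      rw [e] at j
      have eg : ∀ i, ∫ θ, g i (pt z (X r θ)) ∂cu = β i * g i z := fun i => by
        rw [cu_int, mv hΩ hH (hg i).sm (hg i).eq zH r0 r1' inW, hβd]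
        field_simp
      -- the pointwise bound
      have pw : ∀ θ, ψ z * h (fun i => g i z) * Φ (-f (pt z (X r θ))) ≤
          (ψ (pt z (X r θ)) * h (fun i => g i (pt z (X r θ))) * Φ (-f (pt z (X r θ))) +
            ε * H * Φ (-f (pt z (X r θ))) + η * M0 * Φ (-f (pt z (X r θ))) ^ 2) +
          κ * ∑ i, ψ z * (g i z - g i (pt z (X r θ))) ^ 2 := by
        intro θ
        obtain ⟨z', hz'⟩ : ∃ z', z' = pt z (X r θ) := ⟨_, rfl⟩
        rw [← hz']
        have h1 : ψ z ≤ ψ z' + ε := by rw [hz']; exact (hK z hz _ (nX θ)).2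
        obtain ⟨P, hP⟩ : ∃ P, P = Φ (-f z') := ⟨_, rfl⟩
        have P0 : 0 ≤ P := by rw [hP]; exact Φ0 _
        rw [← hP]
        obtain ⟨a, ha⟩ : ∃ a, a = h (fun i => g i z) := ⟨_, rfl⟩
        obtain ⟨b, hb⟩ : ∃ b, b = h (fun i => g i z') := ⟨_, rfl⟩
        have hab : (a - b) ^ 2 ≤ L * ∑ i, (g i z - g i z') ^ 2 := by
          rw [ha, hb]; exact hL _ _
        have b0 : 0 ≤ b := by rw [hb]; exact h0 _
        have bH : b ≤ H := by rw [hb]; exact hH' _
        rw [← ha, ← hb, ← Finset.mul_sum]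
        obtain ⟨S, hS⟩ : ∃ S, S = ∑ i, (g i z - g i z') ^ 2 := ⟨_, rfl⟩
        rw [← hS] at hab ⊢
        -- (a - b) P ≤ η P² + (a-b)²/(4η)
        have h2 : (a - b) * P ≤ η * P ^ 2 + κ * S := by
          have h3 : (a - b) * P ≤ η * P ^ 2 + (a - b) ^ 2 / (4 * η) := by
            have h4 : 0 ≤ (2 * η * P - (a - b)) ^ 2 / (4 * η) := by positivity
            have h5 : (2 * η * P - (a - b)) ^ 2 / (4 * η) =
                η * P ^ 2 - (a - b) * P + (a - b) ^ 2 / (4 * η) := by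
              field_simp
              ring
            linarith
          have h6 : (a - b) ^ 2 / (4 * η) ≤ κ * S := by
            rw [hκ, div_mul_eq_mul_div]
            gcongr
          linarith
        have h7 : ψ z * ((a - b) * P) ≤ ψ z * (η * P ^ 2 + κ * S) :=
          mul_le_mul_of_nonneg_left h2 (ψ0 z)
        have h8 : ψ z * (b * P) ≤ (ψ z' + ε) * (b * P) :=
          mul_le_mul_of_nonneg_right h1 (mul_nonneg b0 P0)
        have h9 : ε * (b * P) ≤ ε * (H * P) :=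
          mul_le_mul_of_nonneg_left (mul_le_mul_of_nonneg_right bH P0) ε0
        have h10 : ψ z * (η * P ^ 2) ≤ M0 * (η * P ^ 2) :=
          mul_le_mul_of_nonneg_right (ψM z) (by positivity)
        nlinarith
      have i1 : Integrable (fun θ => ψ z * h (fun i => g i z) * Φ (-f (pt z (X r θ)))) cu :=
        (cu_cont cP).const_mul _
      have cW : Continuous fun θ => (ψ (pt z (X r θ)) * h (fun i => g i (pt z (X r θ))) *
            Φ (-f (pt z (X r θ))) +
            ε * H * Φ (-f (pt z (X r θ))) + η * M0 * Φ (-f (pt z (X r θ))) ^ 2) :=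
        (((cp.mul chh).mul cP).add (continuous_const.mul cP)).add
          (continuous_const.mul (cP.pow 2))
      have cS : ∀ i, Continuous fun θ => (g i z - g i (pt z (X r θ))) ^ 2 := fun i =>
        (continuous_const.sub (cg i)).pow 2
      have i3 : Integrable (fun θ => κ * ∑ i, ψ z * (g i z - g i (pt z (X r θ))) ^ 2) cu :=
        cu_cont (continuous_const.mul (continuous_finsetSum _ fun i _ =>
          continuous_const.mul (cS i)))
      have st1 : ψ z * h (fun i => g i z) * Φ (c * f z) ≤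
          (∫ θ, (ψ (pt z (X r θ)) * h (fun i => g i (pt z (X r θ))) *
            Φ (-f (pt z (X r θ))) +
            ε * H * Φ (-f (pt z (X r θ))) + η * M0 * Φ (-f (pt z (X r θ))) ^ 2) ∂cu) +
          κ * ∑ i, ψ z * ∫ θ, (g i z - g i (pt z (X r θ))) ^ 2 ∂cu := by
        calc ψ z * h (fun i => g i z) * Φ (c * f z) ≤
            ψ z * h (fun i => g i z) * ∫ θ, Φ (-f (pt z (X r θ))) ∂cu :=
              mul_le_mul_of_nonneg_left j (mul_nonneg (ψ0 _) (h0 _))
          _ = ∫ θ, ψ z * h (fun i => g i z) * Φ (-f (pt z (X r θ))) ∂cu :=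
              (integral_const_mul _ _).symm
          _ ≤ _ := integral_mono i1 ((cu_cont cW).add i3) pw
          _ = _ := by
              have := integral_add (cu_cont cW) i3
              refine this.trans ?_
              congr 1
              rw [integral_const_mul, integral_finsetSum _ fun i _ => (cu_cont (cS i)).const_mul _]
              simp only [integral_const_mul]
      have st2 : ∀ i, ψ z * ∫ θ, (g i z - g i (pt z (X r θ))) ^ 2 ∂cu =
          ψ z * (∫ θ, g i (pt z (X r θ)) ^ 2 ∂cu) - (2 * β i - 1) * (ψ z * g i z ^ 2) := by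
        intro i
        have e2 : ∫ θ, (g i z - g i (pt z (X r θ))) ^ 2 ∂cu =
            g i z ^ 2 - 2 * g i z * (∫ θ, g i (pt z (X r θ)) ∂cu) +
              ∫ θ, g i (pt z (X r θ)) ^ 2 ∂cu := by
          have h1 : ∀ θ, (g i z - g i (pt z (X r θ))) ^ 2 =
              g i z ^ 2 - 2 * g i z * g i (pt z (X r θ)) + g i (pt z (X r θ)) ^ 2 :=
            fun θ => by ring
          simp only [h1]
          have j1 : Integrable (fun _ : ℝ => g i z ^ 2) cu := integrable_const _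
          have j2 : Integrable (fun θ => 2 * g i z * g i (pt z (X r θ))) cu :=
            (cu_cont (cg i)).const_mul _
          have j3 : Integrable (fun θ => g i (pt z (X r θ)) ^ 2) cu := cu_cont ((cg i).pow 2)
          have j4 : Integrable (fun θ => g i z ^ 2 - 2 * g i z * g i (pt z (X r θ))) cu :=
            j1.sub j2
          rw [integral_add j4 j3, integral_sub j1 j2,
            integral_const_mul, integral_const]
          simp
        rw [e2, eg i]
        ring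
      have st3 : ∀ i, ψ z * (∫ θ, g i (pt z (X r θ)) ^ 2 ∂cu) ≤
          ∫ θ, (ψ (pt z (X r θ)) * g i (pt z (X r θ)) ^ 2 + ε * g i (pt z (X r θ)) ^ 2) ∂cu := by
        intro i
        rw [← integral_const_mul]
        refine integral_mono ((cu_cont ((cg i).pow 2)).const_mul _)
          (cu_cont ((cp.mul ((cg i).pow 2)).add (continuous_const.mul ((cg i).pow 2)))) fun θ => ?_
        have h1 := (hK z hz _ (nX θ)).2
        show ψ z * g i (pt z (X r θ)) ^ 2 ≤ ψ (pt z (X r θ)) * g i (pt z (X r θ)) ^ 2 +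
          ε * g i (pt z (X r θ)) ^ 2
        rw [← add_mul]
        exact mul_le_mul_of_nonneg_right h1 (sq_nonneg _)
      have cT : ∀ i, Continuous fun θ => ψ (pt z (X r θ)) * g i (pt z (X r θ)) ^ 2 +
          ε * g i (pt z (X r θ)) ^ 2 := fun i =>
        (cp.mul ((cg i).pow 2)).add (continuous_const.mul ((cg i).pow 2))
      have eG : ∫ θ, G (pt z (X r θ)) ∂cu = (∫ θ, (ψ (pt z (X r θ)) *
            h (fun i => g i (pt z (X r θ))) * Φ (-f (pt z (X r θ))) +
            ε * H * Φ (-f (pt z (X r θ))) + η * M0 * Φ (-f (pt z (X r θ))) ^ 2) ∂cu) +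
          κ * ∑ i, ∫ θ, (ψ (pt z (X r θ)) * g i (pt z (X r θ)) ^ 2 +
            ε * g i (pt z (X r θ)) ^ 2) ∂cu := by
        have j5 : Integrable (fun θ => κ * ∑ i, (ψ (pt z (X r θ)) * g i (pt z (X r θ)) ^ 2 +
          ε * g i (pt z (X r θ)) ^ 2)) cu :=
          cu_cont (continuous_const.mul (continuous_finsetSum _ fun i _ => cT i))
        have := integral_add (cu_cont cW) j5
        rw [hG]
        refine this.trans ?_
        congr 1
        rw [integral_const_mul, integral_finsetSum _ fun i _ => cu_cont (cT i)]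
      have fz : F z = ψ z * h (fun i => g i z) * Φ (c * f z) +
        κ * ∑ i, (2 * β i - 1) * (ψ z * g i z ^ 2) := by rw [hF]
      rw [fz, eG]
      have st4 : κ * ∑ i, ψ z * ∫ θ, (g i z - g i (pt z (X r θ))) ^ 2 ∂cu +
          κ * ∑ i, (2 * β i - 1) * (ψ z * g i z ^ 2) ≤
          κ * ∑ i, ∫ θ, (ψ (pt z (X r θ)) * g i (pt z (X r θ)) ^ 2 +
            ε * g i (pt z (X r θ)) ^ 2) ∂cu := by
        rw [← mul_add, ← Finset.sum_add_distrib]
        refine mul_le_mul_of_nonneg_left (Finset.sum_le_sum fun i _ => ?_) κ0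
        rw [st2 i, sub_add_cancel]
        exact st3 i
      linarith
  -- unfold the integrals
  have QH : Q' ⊆ HH := QΩ.trans hH
  have QH1 : Q ⊆ HH := QQ.trans QH
  have cf1 : ContinuousOn (fun z => Φ (-f z)) Q' := cc.comp_continuousOn cfQ'.neg
  have k1 : Integrable (fun z => ψ z * h (fun i => g i z) * Φ (c * f z)) (hm.restrict Q) :=
    intK hQ QH1 ((cψ.continuousOn.mul chQ).mul (cc.comp_continuousOn
        (continuousOn_const.mul cfQ)))
  have k2 : ∀ i, Integrable (fun z => ψ z * g i z ^ 2) (hm.restrict Q) := fun i =>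
    intK hQ QH1 (cψ.continuousOn.mul ((cgQ i).pow 2))
  have k3 : Integrable (fun z => κ * ∑ i, (2 * β i - 1) * (ψ z * g i z ^ 2)) (hm.restrict Q) :=
    (integrable_finsetSum _ fun i _ => (k2 i).const_mul _).const_mul _
  have k4 : Integrable (fun z => ψ z * h (fun i => g i z) * Φ (-f z)) (hm.restrict Q') :=
    intK hQ' QH ((cψ.continuousOn.mul chQ').mul cf1)
  have k5 : Integrable (fun z => Φ (-f z)) (hm.restrict Q') := intK hQ' QH cf1
  have k6 : Integrable (fun z => Φ (-f z) ^ 2) (hm.restrict Q') := intK hQ' QH (cf1.pow 2)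
  have k7 : ∀ i, Integrable (fun z => ψ z * g i z ^ 2) (hm.restrict Q') := fun i =>
    intK hQ' QH (cψ.continuousOn.mul ((cgQ' i).pow 2))
  have k8 : ∀ i, Integrable (fun z => g i z ^ 2) (hm.restrict Q') := fun i =>
    intK hQ' QH ((cgQ' i).pow 2)
  have eF : ∫ z in Q, F z ∂hm = (∫ z in Q, ψ z * h (fun i => g i z) * Φ (c * f z) ∂hm) +
      κ * ∑ i, (2 * β i - 1) * ∫ z in Q, ψ z * g i z ^ 2 ∂hm := by
    rw [hF, integral_add k1 k3, integral_const_mul,
      integral_finsetSum _ fun i _ => (k2 i).const_mul _]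
    simp only [integral_const_mul]
  have sub : ∀ {q : ℂ → ℝ}, (∀ z, z ∉ Q → q z = 0) → ∫ z in Q', q z ∂hm = ∫ z in Q, q z ∂hm := by
    intro q hq
    exact setIntegral_eq_of_subset_of_forall_diff_eq_zero hQ'.measurableSet QQ
      fun z hz => hq z hz.2
  have eG : ∫ z in Q', G z ∂hm = ((∫ z in Q, ψ z * h (fun i => g i z) * Φ (-f z) ∂hm) +
      ε * H * (∫ z in Q', Φ (-f z) ∂hm) + η * M0 * (∫ z in Q', Φ (-f z) ^ 2 ∂hm)) +
      κ * ∑ i, ((∫ z in Q, ψ z * g i z ^ 2 ∂hm) + ε * ∫ z in Q', g i z ^ 2 ∂hm) := by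
    have q1 : Integrable (fun z => ψ z * h (fun i => g i z) * Φ (-f z) + ε * H * Φ (-f z))
      (hm.restrict Q') := k4.add (k5.const_mul _)
    have q2 : Integrable (fun z => ψ z * h (fun i => g i z) * Φ (-f z) + ε * H * Φ (-f z) +
      η * M0 * Φ (-f z) ^ 2) (hm.restrict Q') := q1.add (k6.const_mul _)
    have q3 : ∀ i, Integrable (fun z => ψ z * g i z ^ 2 + ε * g i z ^ 2) (hm.restrict Q') :=
      fun i => (k7 i).add ((k8 i).const_mul _)
    have q4 : Integrable (fun z => κ * ∑ i, (ψ z * g i z ^ 2 + ε * g i z ^ 2))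
      (hm.restrict Q') := (integrable_finsetSum _ fun i _ => q3 i).const_mul _
    rw [hG, integral_add q2 q4, integral_add q1 (k6.const_mul _),
      integral_add k4 (k5.const_mul _), integral_const_mul, integral_const_mul,
      integral_const_mul, integral_finsetSum _ fun i _ => q3 i,
      sub (q := fun z => ψ z * h (fun i => g i z) * Φ (-f z)) (fun z hz => by
        rw [sψ z hz, zero_mul, zero_mul])]
    congr 2
    refine Finset.sum_congr rfl fun i _ => ?_
    rw [integral_add (k7 i) ((k8 i).const_mul _), integral_const_mul,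
      sub (q := fun z => ψ z * g i z ^ 2) (fun z hz => by rw [sψ z hz, zero_mul])]
  rw [eF, eG] at main
  have fin : κ * ∑ i, ((2 - 2 * ph (s i) r) * (∫ z in Q, ψ z * g i z ^ 2 ∂hm) +
        ε * ∫ z in Q', g i z ^ 2 ∂hm) =
      κ * ∑ i, ((∫ z in Q, ψ z * g i z ^ 2 ∂hm) + ε * ∫ z in Q', g i z ^ 2 ∂hm) -
      κ * ∑ i, (2 * β i - 1) * ∫ z in Q, ψ z * g i z ^ 2 ∂hm := by
    rw [← mul_sub, ← Finset.sum_sub_distrib, hβd]
    congr 1
    refine Finset.sum_congr rfl fun i _ => ?_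
    ring
  rw [fin]
  linarith

end

end Pool.Agent.X127.HY
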