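import Pool.Agent.X127.HY.Rad

/-! # Disc coordinates on the upper half plane -/

set_option autoImplicit false
open MeasureTheory Filter Topology Metric
open scoped ContDiff ENNReal

namespace Pool.Agent.X127.HY

open Pool.Agent.X127.PB (lp)

noncomputable section

/-- the Cayley transform, `0 ↦ i` -/
def cay (w : ℂ) : ℂ := (w + Complex.I) / (1 + Complex.I * w)

/-- its derivative -/
def cay1 (w : ℂ) : ℂ := 2 / (1 + Complex.I * w) ^ 2

/-- its second derivative -/
def cay2 (w : ℂ) : ℂ := -(4 * Complex.I) / (1 + Complex.I * w) ^ 3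

/-- the open unit disc -/
def D : Set ℂ := {w | ‖w‖ < 1}

lemma D_open : IsOpen D := isOpen_lt continuous_norm continuous_const

lemma den_ne {w : ℂ} (hw : w ∈ D) : 1 + Complex.I * w ≠ 0 := by
  intro h
  have hw : ‖w‖ < 1 := hw
  have h1 : Complex.I * w = -1 := by linear_combination h
  have h2 : ‖Complex.I * w‖ = 1 := by rw [h1]; simp
  rw [norm_mul, Complex.norm_I, one_mul] at h2
  linarith

lemma cay_zero : cay 0 = Complex.I := by unfold cay; simp

lemma cay_d {w : ℂ} (hw : w ∈ D) : HasDerivAt cay (cay1 w) w := by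
  have h := den_ne hw
  have h1 : HasDerivAt (fun w : ℂ => w + Complex.I) 1 w := (hasDerivAt_id w).add_const _
  have h2 : HasDerivAt (fun w : ℂ => 1 + Complex.I * w) Complex.I w := by
    have := ((hasDerivAt_id w).const_mul Complex.I).const_add 1
    refine this.congr_deriv ?_
    simp
  have := h1.fun_div h2 h
  refine this.congr_deriv ?_
  unfold cay1
  congr 1
  linear_combination -Complex.I_mul_I

lemma cay1_d {w : ℂ} (hw : w ∈ D) : HasDerivAt cay1 (cay2 w) w := by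
  have h := den_ne hw
  have h2 : HasDerivAt (fun w : ℂ => (1 + Complex.I * w) ^ 2)
      (2 * (1 + Complex.I * w) * Complex.I) w := by
    have h3 : HasDerivAt (fun w : ℂ => 1 + Complex.I * w) Complex.I w := by
      have := ((hasDerivAt_id w).const_mul Complex.I).const_add 1
      refine this.congr_deriv ?_
      simp
    refine (h3.pow 2).congr_deriv ?_
    push_cast
    ring
  have := (hasDerivAt_const w (2 : ℂ)).fun_div h2 (pow_ne_zero 2 h)
  refine this.congr_deriv ?_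
  unfold cay2
  field_simp
  ring

lemma den_sq (w : ℂ) : ‖1 + Complex.I * w‖ ^ 2 = 1 - 2 * w.im + ‖w‖ ^ 2 := by
  rw [Complex.sq_norm, Complex.sq_norm, Complex.normSq_apply, Complex.normSq_apply]
  simp
  ring

lemma cay_im (w : ℂ) : (cay w).im = (1 - ‖w‖ ^ 2) / ‖1 + Complex.I * w‖ ^ 2 := by
  unfold cay
  rw [Complex.div_im, Complex.sq_norm, Complex.sq_norm, Complex.normSq_apply w]
  rw [← sub_div]
  congr 1
  simp
  ring

lemma cay_im_pos {w : ℂ} (hw : w ∈ D) : 0 < (cay w).im := by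
  have h := den_ne hw
  have hw : ‖w‖ < 1 := hw
  rw [cay_im]
  have h1 : 0 < ‖1 + Complex.I * w‖ := norm_pos_iff.2 h
  have h2 : 0 < 1 - ‖w‖ ^ 2 := by nlinarith [norm_nonneg w]
  positivity

/-- `|c'| = 2 Im c / (1 - |w|²)` -/
lemma cay1_norm {w : ℂ} (hw : w ∈ D) : ‖cay1 w‖ ^ 2 / (cay w).im ^ 2 = 4 / (1 - ‖w‖ ^ 2) ^ 2 := by
  have h := den_ne hw
  have h1 : 0 < ‖1 + Complex.I * w‖ := norm_pos_iff.2 h
  have hw : ‖w‖ < 1 := hw
  have h2 : 0 < 1 - ‖w‖ ^ 2 := by nlinarith [norm_nonneg w]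
  rw [cay_im]
  unfold cay1
  rw [norm_div, norm_pow, Complex.norm_ofNat]
  field_simp
  norm_num

/-- the point with disc coordinate `w` in the disc centred at `z` -/
def pt (z w : ℂ) : ℂ := z.re + z.im * cay w

lemma pt_im (z w : ℂ) : (pt z w).im = z.im * (cay w).im := by unfold pt; simp

lemma pt_zero (z : ℂ) : pt z 0 = z := by
  unfold pt
  rw [cay_zero]
  exact Complex.re_add_im z

lemma bil (T : ℂ →L[ℝ] ℂ →L[ℝ] ℝ) (c : ℂ) :
    T c c + T (c * Complex.I) (c * Complex.I) = ‖c‖ ^ 2 * (T 1 1 + T Complex.I Complex.I) := by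
  have h1 : c = c.re • (1 : ℂ) + c.im • Complex.I := by
    simp [Complex.real_smul]
  have h2 : c * Complex.I = (-c.im) • (1 : ℂ) + c.re • Complex.I := by
    apply Complex.ext <;> simp
  rw [Complex.sq_norm, Complex.normSq_apply, h2]
  obtain ⟨a, ha⟩ : ∃ a, a = c.re := ⟨_, rfl⟩
  obtain ⟨b, hb⟩ : ∃ b, b = c.im := ⟨_, rfl⟩
  rw [← ha, ← hb] at h1 ⊢
  rw [h1]
  simp only [map_add, map_smul, add_apply, smul_apply, smul_eq_mul]
  ring

/-- **the Laplacian in disc coordinates** -/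
theorem lp_cay {Ω : Set ℂ} (hΩ : IsOpen Ω) {f : ℂ → ℝ} (sf : ContDiffOn ℝ ∞ f Ω) {z w : ℂ}
    (hw : w ∈ D) (hp : pt z w ∈ Ω) :
    lp (fun w => f (pt z w)) w = z.im ^ 2 * ‖cay1 w‖ ^ 2 * lp f (pt z w) := by
  have fat : ∀ y ∈ Ω, ContDiffAt ℝ ∞ f y := fun y hy => sf.contDiffAt (hΩ.mem_nhds hy)
  have pd : ∀ w ∈ D, HasDerivAt (pt z) (z.im * cay1 w) w := by
    intro w hw
    exact ((cay_d hw).const_mul (z.im : ℂ)).const_add (z.re : ℂ)
  have nb : ∀ᶠ y in 𝓝 w, y ∈ D ∧ pt z y ∈ Ω := by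
    have h1 : ∀ᶠ y in 𝓝 w, y ∈ D := D_open.mem_nhds hw
    have h2 : ∀ᶠ y in 𝓝 w, pt z y ∈ Ω :=
      (pd w hw).continuousAt.eventually (hΩ.mem_nhds hp)
    exact h1.and h2
  -- first derivative
  have g1 : ∀ k : ℂ, (fun y => fderiv ℝ (fun w => f (pt z w)) y k) =ᶠ[𝓝 w]
      fun y => fderiv ℝ f (pt z y) (z.im * cay1 y * k) := by
    intro k
    filter_upwards [nb] with y hy
    have h1 : HasFDerivAt (pt z) ((ContinuousLinearMap.toSpanSingleton ℂ
        (z.im * cay1 y)).restrictScalars ℝ) y := (pd y hy.1).hasFDerivAt.restrictScalars ℝ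
    have h2 := ((fat _ hy.2).differentiableAt (by simp)).hasFDerivAt.comp y h1
    have h3 : (fun w => f (pt z w)) = f ∘ pt z := rfl
    rw [h3, h2.fderiv]
    show fderiv ℝ f (pt z y) (k • (z.im * cay1 y)) = _
    rw [smul_eq_mul, mul_comm]
  -- second derivative
  obtain ⟨T, hT⟩ : ∃ T, T = fderiv ℝ (fderiv ℝ f) (pt z w) := ⟨_, rfl⟩
  have hdf : HasFDerivAt (fderiv ℝ f) T (pt z w) := by
    rw [hT]
    exact (((fat _ hp).fderiv_right (m := ∞) (by simp)).differentiableAt (by simp)).hasFDerivAt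
  have hpt : HasFDerivAt (pt z) ((ContinuousLinearMap.toSpanSingleton ℂ
        (z.im * cay1 w)).restrictScalars ℝ) w := (pd w hw).hasFDerivAt.restrictScalars ℝ
  have g2 : ∀ k : ℂ, fderiv ℝ (fun y => fderiv ℝ f (pt z y) (z.im * cay1 y * k)) w k =
      T (z.im * cay1 w * k) (z.im * cay1 w * k) +
        fderiv ℝ f (pt z w) (z.im * cay2 w * k * k) := by
    intro k
    have h1 : HasFDerivAt (fun y => fderiv ℝ f (pt z y)) (T.comp
        ((ContinuousLinearMap.toSpanSingleton ℂ (z.im * cay1 w)).restrictScalars ℝ)) w :=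
      hdf.comp w hpt
    have h2 : HasFDerivAt (fun y : ℂ => (z.im : ℂ) * cay1 y * k)
        ((ContinuousLinearMap.toSpanSingleton ℂ (z.im * cay2 w * k)).restrictScalars ℝ) w :=
      (((cay1_d hw).const_mul (z.im : ℂ)).mul_const k).hasFDerivAt.restrictScalars ℝ
    have h3 := h1.clm_apply h2
    rw [h3.fderiv]
    simp only [add_apply, ContinuousLinearMap.comp_apply, ContinuousLinearMap.flip_apply]
    show fderiv ℝ f (pt z w) (k • (z.im * cay2 w * k)) + T (k • (z.im * cay1 w)) _ = _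
    rw [smul_eq_mul, smul_eq_mul, mul_comm k, mul_comm k]
    ring
  have g3 : lp f (pt z w) = T 1 1 + T Complex.I Complex.I := by
    unfold Pool.Agent.X127.PB.lp
    have h2 : ∀ h : ℂ, fderiv ℝ (fun w => fderiv ℝ f w h) (pt z w) h = T h h := by
      intro h
      have h3 : HasFDerivAt (fun w => fderiv ℝ f w h)
          ((ContinuousLinearMap.apply ℝ ℝ h).comp T) (pt z w) :=
        (ContinuousLinearMap.apply ℝ ℝ h).hasFDerivAt.comp _ hdf
      rw [h3.fderiv]
      rfl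
    rw [h2, h2]
  have e : lp (fun w => f (pt z w)) w =
      fderiv ℝ (fun y => fderiv ℝ f (pt z y) (z.im * cay1 y * 1)) w 1 +
      fderiv ℝ (fun y => fderiv ℝ f (pt z y) (z.im * cay1 y * Complex.I)) w Complex.I := by
    unfold Pool.Agent.X127.PB.lp
    rw [(g1 1).fderiv_eq, (g1 Complex.I).fderiv_eq]
  rw [e, g2, g2, g3]
  have b := bil T (z.im * cay1 w)
  rw [norm_mul, Complex.norm_real, mul_pow, Real.norm_eq_abs, sq_abs] at b
  simp only [mul_one]
  have e2 : (z.im : ℂ) * cay2 w * Complex.I * Complex.I = -(z.im * cay2 w) := by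
    linear_combination (z.im : ℂ) * cay2 w * Complex.I_mul_I
  rw [e2, map_neg, ← b]
  ring

end

end Pool.Agent.X127.HY
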