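import Pool.Agent.X127.HY.Ker

/-! # Circle averages on the hyperbolic plane and the exact inequality -/

set_option autoImplicit false
open MeasureTheory Filter Topology Metric
open scoped ContDiff ENNReal

namespace Pool.Agent.X127.HY

open Pool.Agent.TH298.Sch (X er et norm_X X_cont)
open Pool.Agent.X127.PB (lp cu cu_int cu_cont jen)
open Pool.Agent.X127.SW (conv_cont)

noncomputable section

/-- the density of the hyperbolic area -/
def kd (z : ℂ) : ℝ≥0∞ := ENNReal.ofReal (1 / z.im ^ 2)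

/-- the hyperbolic area -/
def hm : Measure ℂ := volume.withDensity kd

lemma kd_meas : Measurable kd := by
  unfold kd
  exact (measurable_const.div (Complex.measurable_im.pow_const 2)).ennreal_ofReal

/-- the linear map `z ↦ Re z + c Im z` -/
def TT (c : ℂ) : ℂ →ₗ[ℝ] ℂ where
  toFun z := z.re + z.im * c
  map_add' x y := by push_cast [Complex.add_re, Complex.add_im]; ring
  map_smul' a x := by
    simp only [Complex.real_smul, Complex.re_ofReal_mul, Complex.im_ofReal_mul, RingHom.id_apply]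
    push_cast
    ring

lemma TT_det (c : ℂ) : LinearMap.det (TT c) = c.im := by
  rw [← LinearMap.det_toMatrix Complex.basisOneI (TT c)]
  rw [Matrix.det_fin_two]
  simp [LinearMap.toMatrix_apply, TT]

lemma cov {c : ℂ} (hc : 0 < c.im) {w : ℂ → ℝ≥0∞} (mw : Measurable w) :
    ∫⁻ z, kd z * w (z.re + z.im * c) = ENNReal.ofReal c.im * ∫⁻ z, kd z * w z := by
  have hd : LinearMap.det (TT c) ≠ 0 := by rw [TT_det]; exact hc.ne'
  have h1 := Measure.map_linearMap_addHaar_eq_smul_addHaar (μ := (volume : Measure ℂ)) hd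
  have mT : Measurable (TT c) := (LinearMap.continuous_of_finiteDimensional (TT c)).measurable
  have e : ∀ z : ℂ, kd z * w (z.re + z.im * c) =
      ENNReal.ofReal (c.im ^ 2) * ((fun y => kd y * w y) (TT c z)) := by
    intro z
    have e1 : TT c z = z.re + z.im * c := rfl
    have e2 : ((z.re : ℂ) + z.im * c).im = z.im * c.im := by simp
    simp only [e1]
    unfold kd
    rw [e2, ← mul_assoc, ← ENNReal.ofReal_mul (by positivity)]
    congr 2
    by_cases h : z.im = 0
    · rw [h]; simp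
    · have := hc.ne'
      field_simp
  simp only [e]
  have mk : Measurable fun y => kd y * w y := kd_meas.mul mw
  have m2 : Measurable fun z => (fun y => kd y * w y) (TT c z) := mk.comp mT
  rw [lintegral_const_mul _ m2, ← lintegral_map mk mT, h1, lintegral_smul_measure,
    TT_det, abs_of_pos (inv_pos.2 hc), smul_eq_mul, ← mul_assoc,
    ← ENNReal.ofReal_mul (by positivity)]
  congr 2
  field_simp

lemma cay_meas : Measurable cay := by
  unfold cay
  exact (measurable_id.add_const _).div ((measurable_id.const_mul _).const_add _)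

/-- averaging over hyperbolic circles -/
lemma avgH {K Ω : Set ℂ} (mK : MeasurableSet K) (hΩ : IsOpen Ω) (hH : Ω ⊆ HH) {r : ℝ}
    (r0 : 0 < r) (r1 : r < 1) (hK : ∀ z ∈ K, ∀ w, ‖w‖ ≤ r → pt z w ∈ Ω)
    {f g : ℂ → ℝ} (g0 : ∀ z, 0 ≤ g z) (cg : ContinuousOn g Ω)
    (h : ∀ z ∈ K, f z ≤ ∫ θ, g (pt z (X r θ)) ∂cu) :
    ∫⁻ z in K, ENNReal.ofReal (f z) ∂hm ≤ ∫⁻ z in Ω, ENNReal.ofReal (g z) ∂hm := by
  have pp := Real.pi_pos
  obtain ⟨w, hw⟩ : ∃ w : ℂ → ℝ≥0∞, w = Ω.indicator fun z => ENNReal.ofReal (g z) := ⟨_, rfl⟩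
  have mw : Measurable w := by
    rw [hw]
    have h1 : Measurable (Ω.indicator g) := by
      classical
      rw [← Set.piecewise_eq_indicator]
      exact ContinuousOn.measurable_piecewise cg continuous_const.continuousOn hΩ.measurableSet
    have h2 : (Ω.indicator fun z => ENNReal.ofReal (g z)) =
        fun z => ENNReal.ofReal (Ω.indicator g z) := by
      funext z
      by_cases hz : z ∈ Ω
      · rw [Set.indicator_of_mem hz, Set.indicator_of_mem hz]
      · rw [Set.indicator_of_notMem hz, Set.indicator_of_notMem hz, ENNReal.ofReal_zero]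
    rw [h2]
    exact h1.ennreal_ofReal
  have nX : ∀ θ, ‖X r θ‖ ≤ r := fun θ => by rw [norm_X, abs_of_pos r0]
  have XD : ∀ θ, X r θ ∈ D := fun θ => lt_of_le_of_lt (nX θ) r1
  have cX : Continuous fun θ => X r θ := X_cont.comp (continuous_const.prodMk continuous_id)
  have cc : Continuous fun θ => cay (X r θ) := cay_smooth.continuousOn.comp_continuous cX XD
  have ptw : ∀ z ∈ K, ENNReal.ofReal (f z) ≤ ∫⁻ θ, w (pt z (X r θ)) ∂cu := by
    intro z hz
    have inΩ : ∀ θ, pt z (X r θ) ∈ Ω := fun θ => hK z hz _ (nX θ)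
    have cp : Continuous fun θ => pt z (X r θ) := continuous_const.add (continuous_const.mul cc)
    have c1 : Continuous fun θ => g (pt z (X r θ)) := cg.comp_continuous cp inΩ
    have e : ∫⁻ θ, w (pt z (X r θ)) ∂cu = ∫⁻ θ, ENNReal.ofReal (g (pt z (X r θ))) ∂cu := by
      refine lintegral_congr fun θ => ?_
      rw [hw, Set.indicator_of_mem (inΩ θ)]
    rw [e, ← ofReal_integral_eq_lintegral_ofReal (cu_cont c1) (ae_of_all _ fun θ => g0 _)]
    exact ENNReal.ofReal_le_ofReal (h z hz)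
  have mp : Measurable (Function.uncurry fun (z : ℂ) (θ : ℝ) => w (pt z (X r θ))) := by
    refine mw.comp ?_
    have : Measurable fun p : ℂ × ℝ => ((p.1.re : ℂ) + p.1.im * cay (X r p.2)) :=
      (Complex.measurable_ofReal.comp (Complex.measurable_re.comp measurable_fst)).add
        ((Complex.measurable_ofReal.comp (Complex.measurable_im.comp measurable_fst)).mul
          (cc.measurable.comp measurable_snd))
    exact this
  have bint : ∫⁻ θ, ENNReal.ofReal (cay (X r θ)).im ∂cu = 1 := by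
    have ci : Continuous fun θ => (cay (X r θ)).im := Complex.continuous_im.comp cc
    rw [← ofReal_integral_eq_lintegral_ofReal (cu_cont ci)
      (ae_of_all _ fun θ => (cay_im_pos (XD θ)).le), cu_int, mv_im r0 r1]
    rw [inv_mul_cancel₀ (by positivity), ENNReal.ofReal_one]
  calc ∫⁻ z in K, ENNReal.ofReal (f z) ∂hm ≤
      ∫⁻ z in K, (∫⁻ θ, w (pt z (X r θ)) ∂cu) ∂hm := setLIntegral_mono' mK ptw
    _ ≤ ∫⁻ z, (∫⁻ θ, w (pt z (X r θ)) ∂cu) ∂hm := setLIntegral_le_lintegral _ _
    _ = ∫⁻ θ, (∫⁻ z, w (pt z (X r θ)) ∂hm) ∂cu := by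
        have sf : SFinite hm := by unfold hm; infer_instance
        exact lintegral_lintegral_swap mp.aemeasurable
    _ = ∫⁻ θ, ENNReal.ofReal (cay (X r θ)).im * (∫⁻ z, w z ∂hm) ∂cu := by
        refine lintegral_congr fun θ => ?_
        have m1 : Measurable fun z => w (pt z (X r θ)) :=
          mp.comp (measurable_id.prodMk measurable_const)
        unfold hm
        rw [lintegral_withDensity_eq_lintegral_mul _ kd_meas m1,
          lintegral_withDensity_eq_lintegral_mul _ kd_meas mw]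
        exact cov (cay_im_pos (XD θ)) mw
    _ = ∫⁻ z, w z ∂hm := by
        have mb : Measurable fun θ => ENNReal.ofReal (cay (X r θ)).im :=
          (Complex.measurable_im.comp cc.measurable).ennreal_ofReal
        rw [lintegral_mul_const _ mb, bint, one_mul]
    _ = ∫⁻ z in Ω, ENNReal.ofReal (g z) ∂hm := by
        rw [hw, lintegral_indicator hΩ.measurableSet]

lemma cay_dist {w : ℂ} {r : ℝ} (hw : ‖w‖ ≤ r) (r1 : r < 1) :
    ‖cay w - Complex.I‖ ≤ 2 * r / (1 - r) := by
  have hD : w ∈ D := lt_of_le_of_lt hw r1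
  have hn := den_ne hD
  have e : cay w - Complex.I = 2 * w / (1 + Complex.I * w) := by
    unfold cay
    rw [div_sub' hn]
    congr 1
    linear_combination -w * Complex.I_mul_I
  have h1 : 1 - r ≤ ‖1 + Complex.I * w‖ := by
    have h2 := norm_sub_norm_le (1 : ℂ) (-(Complex.I * w))
    rw [sub_neg_eq_add, norm_neg, norm_mul, Complex.norm_I, one_mul, norm_one] at h2
    linarith
  have r0 : 0 ≤ r := (norm_nonneg w).trans hw
  rw [e, norm_div, norm_mul, Complex.norm_ofNat]
  exact div_le_div₀ (by linarith) (by linarith) (by linarith) h1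

/-- the points whose disc of hyperbolic radius about `4/t` lies in `Ω` -/
def inn (Ω : Set ℂ) (t : ℝ) : Set ℂ := {z | 0 < z.im ∧ closedBall z (4 * z.im / t) ⊆ Ω}

lemma inn_open {Ω : Set ℂ} (hΩ : IsOpen Ω) {t : ℝ} (ht : 0 < t) : IsOpen (inn Ω t) := by
  rw [Metric.isOpen_iff]
  intro z hz
  obtain ⟨hz0, hz1⟩ := hz
  obtain ⟨δ, hδ, hs⟩ := (isCompact_closedBall z (4 * z.im / t)).exists_cthickening_subset_open
    hΩ hz1
  rw [cthickening_closedBall hδ.le (by positivity)] at hs
  have hc : Continuous fun w : ℂ => 4 * w.im / t := by fun_prop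
  have h1 : ∀ᶠ w in 𝓝 z, 4 * w.im / t < 4 * z.im / t + δ / 2 :=
    hc.continuousAt.eventually_lt_const (by linarith)
  have h2 : ∀ᶠ w in 𝓝 z, w ∈ ball z (δ / 2) := ball_mem_nhds z (by positivity)
  have h3 : ∀ᶠ w in 𝓝 z, w ∈ HH := HH_open.mem_nhds hz0
  obtain ⟨ε, ε0, hε⟩ := Metric.eventually_nhds_iff_ball.1 (h1.and (h2.and h3))
  refine ⟨ε, ε0, fun w hw => ?_⟩
  obtain ⟨a1, a2, a3⟩ := hε w hw
  refine ⟨a3, subset_trans (closedBall_subset_closedBall' ?_) hs⟩
  rw [mem_ball] at a2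
  linarith

lemma inn_pt {Ω : Set ℂ} {t r : ℝ} (r1 : r < 1) (hr : 2 * r / (1 - r) ≤ 4 / t) {z : ℂ}
    (hz : z ∈ inn Ω t) {w : ℂ} (hw : ‖w‖ ≤ r) : pt z w ∈ Ω := by
  obtain ⟨h0, h1⟩ := hz
  apply h1
  rw [mem_closedBall, dist_eq_norm]
  have e : pt z w - z = z.im * (cay w - Complex.I) := by
    unfold pt
    linear_combination Complex.re_add_im z
  rw [e, norm_mul, Complex.norm_real, Real.norm_eq_abs, abs_of_pos h0]
  calc z.im * ‖cay w - Complex.I‖ ≤ z.im * (4 / t) := by
        gcongr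
        exact (cay_dist hw r1).trans hr
    _ = 4 * z.im / t := by ring

/-- **the exact inequality** -/
theorem exactH {c : ℝ} (c0 : 0 ≤ c) (c1 : c < 2 / 5) : ∃ t0 : ℝ, 0 < t0 ∧ ∀ t ≥ t0,
    ∀ (Ω : Set ℂ) (f : ℂ → ℝ), IsOpen Ω → Ω ⊆ HH → ContDiffOn ℝ ∞ f Ω →
    (∀ z ∈ Ω, -(z.im ^ 2 * lp f z) = (1 / 4 + t ^ 2) * f z) →
    ∀ Φ : ℝ → ℝ, ConvexOn ℝ Set.univ Φ → (∀ x, 0 ≤ Φ x) →
    ∫⁻ z in inn Ω t, ENNReal.ofReal (Φ (c * f z)) ∂hm ≤
      ∫⁻ z in Ω, ENNReal.ofReal (Φ (-f z)) ∂hm := by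
  obtain ⟨t0, ht0, H⟩ := exists_r c0 c1
  refine ⟨t0, ht0, fun t ht Ω f hΩ hH sf he Φ cΦ Φ0 => ?_⟩
  obtain ⟨r, r0, r1, hr, hph⟩ := H t ht
  have r1' : r < 1 := by linarith
  have tp : 0 < t := ht0.trans_le ht
  have pp := Real.pi_pos
  have cc := conv_cont cΦ
  refine avgH (inn_open hΩ tp).measurableSet hΩ hH r0 r1'
    (fun z hz w hw => inn_pt r1' hr hz hw) (fun z => Φ0 _)
    (cc.comp_continuousOn sf.continuousOn.neg) fun z hz => ?_
  have nX : ∀ θ, ‖X r θ‖ ≤ r := fun θ => by rw [norm_X, abs_of_pos r0]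
  have XD : ∀ θ, X r θ ∈ D := fun θ => lt_of_le_of_lt (nX θ) r1'
  have cX : Continuous fun θ => X r θ := X_cont.comp (continuous_const.prodMk continuous_id)
  have cy : Continuous fun θ => cay (X r θ) := cay_smooth.continuousOn.comp_continuous cX XD
  have cp : Continuous fun θ => pt z (X r θ) := continuous_const.add (continuous_const.mul cy)
  have cf : Continuous fun θ => f (pt z (X r θ)) := sf.continuousOn.comp_continuous cp
    fun θ => inn_pt r1' hr hz (nX θ)
  have m := mv hΩ hH sf he hz.1 r0 r1' (fun w hw => inn_pt r1' hr hz hw)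
  have j := jen cΦ (k := fun θ => -f (pt z (X r θ))) cf.neg
  have e : ∫ θ, -f (pt z (X r θ)) ∂cu = c * f z := by
    rw [cu_int, intervalIntegral.integral_neg, m, hph]
    field_simp
  rw [e] at j
  exact j

end

end Pool.Agent.X127.HY
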