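import Pool.Agent.X127.HY.Seq
import Pool.Agent.X127.PB.Lim

/-! # Joint limit laws are conditionally quasi-symmetric -/

set_option autoImplicit false
open MeasureTheory Filter Topology Metric
open scoped ContDiff ENNReal

namespace Pool.Agent.X127.HY

open Pool.Agent.X127.PB (lp lin_approx)
open Pool.Agent.X127.SW (conv_cont)

noncomputable section

variable {Ω : Set ℂ} {k : ℕ} {t : ℕ → ℝ} {f : ℕ → ℂ → ℝ} {s : Fin k → ℕ → ℝ}
    {g : Fin k → ℕ → ℂ → ℝ} {ψ : ℂ → ℝ}

/-- the test functions -/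
structure Te (Ω : Set ℂ) (ψ : ℂ → ℝ) : Prop where
  c : Continuous ψ
  k : HasCompactSupport ψ
  t : tsupport ψ ⊆ Ω
  p : ∀ z, 0 ≤ ψ z

lemma IJ_mono (hH : Ω ⊆ HH) (hψ : Te Ω ψ) {F G : ℂ → ℝ} (cF : ContinuousOn F Ω)
    (cG : ContinuousOn G Ω) (h : ∀ z ∈ Ω, F z ≤ G z) : IJ ψ F ≤ IJ ψ G := by
  have hQ : IsCompact (tsupport ψ) := hψ.k
  have sψ : ∀ z, z ∉ tsupport ψ → ψ z = 0 := fun z hz => image_eq_zero_of_notMem_tsupport hz
  rw [← IJ_eq hQ.measurableSet sψ, ← IJ_eq hQ.measurableSet sψ]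
  refine setIntegral_mono_on (intK hQ (hψ.t.trans hH) (hψ.c.continuousOn.mul (cF.mono hψ.t)))
    (intK hQ (hψ.t.trans hH) (hψ.c.continuousOn.mul (cG.mono hψ.t))) hQ.measurableSet
    fun z hz => mul_le_mul_of_nonneg_left (h z (hψ.t hz)) (hψ.p z)

lemma IJ_add (hH : Ω ⊆ HH) (hψ : Te Ω ψ) {F G : ℂ → ℝ} (cF : ContinuousOn F Ω)
    (cG : ContinuousOn G Ω) (a : ℝ) : IJ ψ (fun z => F z + a * G z) = IJ ψ F + a * IJ ψ G := by
  have hQ : IsCompact (tsupport ψ) := hψ.k
  have sψ : ∀ z, z ∉ tsupport ψ → ψ z = 0 := fun z hz => image_eq_zero_of_notMem_tsupport hz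
  rw [← IJ_eq hQ.measurableSet sψ, ← IJ_eq hQ.measurableSet sψ, ← IJ_eq hQ.measurableSet sψ]
  have i1 : Integrable (fun z => ψ z * F z) (hm.restrict (tsupport ψ)) :=
    intK hQ (hψ.t.trans hH) (hψ.c.continuousOn.mul (cF.mono hψ.t))
  have i2 : Integrable (fun z => ψ z * G z) (hm.restrict (tsupport ψ)) :=
    intK hQ (hψ.t.trans hH) (hψ.c.continuousOn.mul (cG.mono hψ.t))
  have e : ∀ z, ψ z * (F z + a * G z) = ψ z * F z + a * (ψ z * G z) := fun z => by ring
  simp only [e]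
  rw [integral_add i1 (i2.const_mul a), integral_const_mul]

lemma IJ_f2 (HF : Fo Ω t f s g) (hψ : Te Ω ψ) :
    ∃ C : ℝ, 0 ≤ C ∧ ∀ᶠ n in atTop, IJ ψ (fun z => f n z ^ 2) ≤ C := by
  have hQ : IsCompact (tsupport ψ) := hψ.k
  have sψ : ∀ z, z ∉ tsupport ψ → ψ z = 0 := fun z hz => image_eq_zero_of_notMem_tsupport hz
  obtain ⟨C1, hC1⟩ := HF.lf _ hQ hψ.t
  obtain ⟨Cf, Cf0, hCf⟩ := loc_hm hQ hψ.t HF.sub (fun n => (HF.ef n).sm.continuousOn) hC1
  obtain ⟨M, hM⟩ := hψ.k.exists_bound_of_continuous hψ.c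
  refine ⟨max M 0 * Cf, by positivity, ?_⟩
  filter_upwards [hCf] with n hn
  rw [← IJ_eq hQ.measurableSet sψ]
  have cf : ContinuousOn (f n) (tsupport ψ) := (HF.ef n).sm.continuousOn.mono hψ.t
  have i2 : Integrable (fun z => f n z ^ 2) (hm.restrict (tsupport ψ)) :=
    intK hQ (hψ.t.trans HF.sub) (cf.pow 2)
  calc ∫ z in tsupport ψ, ψ z * f n z ^ 2 ∂hm ≤ ∫ z in tsupport ψ, max M 0 * f n z ^ 2 ∂hm := by
        refine integral_mono (intK hQ (hψ.t.trans HF.sub) (hψ.c.continuousOn.mul (cf.pow 2)))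
          (i2.const_mul _) fun z => ?_
        exact mul_le_mul_of_nonneg_right (((le_abs_self _).trans (hM z)).trans (le_max_left _ _))
          (sq_nonneg _)
    _ = max M 0 * ∫ z in tsupport ψ, f n z ^ 2 ∂hm := integral_const_mul _ _
    _ ≤ max M 0 * Cf := by gcongr

/-- `ν` is the weak limit of the joint laws -/
def Lim (ψ : ℂ → ℝ) (f : ℕ → ℂ → ℝ) (g : Fin k → ℕ → ℂ → ℝ)
    (ν : Measure (ℝ × (Fin k → ℝ))) : Prop :=
  ∀ F : ℝ × (Fin k → ℝ) → ℝ, Continuous F → (∃ M, ∀ p, |F p| ≤ M) →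
    Tendsto (fun n => IJ ψ (fun z => F (f n z, fun i => g i n z))) atTop (𝓝 (∫ p, F p ∂ν))

lemma second (HF : Fo Ω t f s g) (hψ : Te Ω ψ) {ν : Measure (ℝ × (Fin k → ℝ))}
    [IsFiniteMeasure ν] (hν : Lim ψ f g ν) : ∫⁻ p, ENNReal.ofReal (p.1 ^ 2) ∂ν ≠ ⊤ := by
  obtain ⟨C, C0, hC⟩ := IJ_f2 HF hψ
  have step : ∀ T : ℝ, 0 ≤ T → ∫⁻ p, ENNReal.ofReal (min (p.1 ^ 2) T) ∂ν ≤ ENNReal.ofReal C := by
    intro T T0
    have cT : Continuous fun p : ℝ × (Fin k → ℝ) => min (p.1 ^ 2) T :=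
      (continuous_fst.pow 2).min continuous_const
    have bT : ∀ p : ℝ × (Fin k → ℝ), |min (p.1 ^ 2) T| ≤ T := fun p => by
      rw [abs_of_nonneg (le_min (sq_nonneg _) T0)]; exact min_le_right _ _
    have h1 := hν (fun p => min (p.1 ^ 2) T) cT ⟨T, bT⟩
    have h2 : ∫ p, min (p.1 ^ 2) T ∂ν ≤ C := by
      refine le_of_tendsto h1 ?_
      filter_upwards [hC] with n hn
      refine (IJ_mono HF.sub hψ (((HF.ef n).sm.continuousOn.pow 2).inf continuousOn_const)
        ((HF.ef n).sm.continuousOn.pow 2) fun z _ => min_le_left _ _).trans hn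
    rw [← ofReal_integral_eq_lintegral_ofReal
      (Integrable.of_bound cT.aestronglyMeasurable T (ae_of_all _ bT))
      (ae_of_all _ fun p => le_min (sq_nonneg _) T0)]
    exact ENNReal.ofReal_le_ofReal h2
  have mc : ∀ n : ℕ, Measurable fun p : ℝ × (Fin k → ℝ) => ENNReal.ofReal (min (p.1 ^ 2) n) :=
    fun n => ((continuous_fst.pow 2).min continuous_const).measurable.ennreal_ofReal
  have t := lintegral_tendsto_of_tendsto_of_monotone (μ := ν)
    (f := fun (n : ℕ) p => ENNReal.ofReal (min (p.1 ^ 2) n))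
    (F := fun p => ENNReal.ofReal (p.1 ^ 2)) (fun n => (mc n).aemeasurable)
    (ae_of_all _ fun x m n hmn => ENNReal.ofReal_le_ofReal
      (min_le_min le_rfl (by exact_mod_cast hmn)))
    (ae_of_all _ fun x => by
      refine tendsto_const_nhds.congr' ?_
      obtain ⟨N, hN⟩ := exists_nat_ge (x.1 ^ 2)
      filter_upwards [eventually_ge_atTop N] with n hn
      rw [min_eq_left (hN.trans (by exact_mod_cast hn))])
  exact ne_top_of_le_ne_top ENNReal.ofReal_ne_top (le_of_tendsto' t fun n =>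
    step n n.cast_nonneg)

/-- Lipschitz weights -/
lemma con3 (HF : Fo Ω t f s g) (hψ : Te Ω ψ) {ν : Measure (ℝ × (Fin k → ℝ))}
    [IsFiniteMeasure ν] (hν : Lim ψ f g ν) {h : (Fin k → ℝ) → ℝ} {H L : ℝ}
    (ch : Continuous h) (h0 : ∀ y, 0 ≤ h y) (hH' : ∀ y, h y ≤ H) (L0 : 0 ≤ L)
    (hL : ∀ y y', (h y - h y') ^ 2 ≤ L * ∑ i, (y i - y' i) ^ 2)
    {Φ : ℝ → ℝ} (cΦ : ConvexOn ℝ Set.univ Φ) (Φ0 : ∀ x, 0 ≤ Φ x) {A B : ℝ} (A0 : 0 ≤ A)
    (B0 : 0 ≤ B) (hAB : ∀ x, Φ x ≤ A + B * |x|) {c : ℝ} (c0 : 0 ≤ c) (c1 : c < 2 / 5) :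
    ∫⁻ p, ENNReal.ofReal (h p.2 * Φ (c * p.1)) ∂ν ≤
      ∫⁻ p, ENNReal.ofReal (h p.2 * Φ (-p.1)) ∂ν := by
  have cc := conv_cont cΦ
  have H0 : 0 ≤ H := (h0 0).trans (hH' 0)
  obtain ⟨C, C0, hC⟩ := IJ_f2 HF hψ
  have ch2 : Continuous fun p : ℝ × (Fin k → ℝ) => h p.2 := ch.comp continuous_snd
  have cw : ∀ n, ContinuousOn (fun z => h (fun i => g i n z)) Ω := fun n =>
    ch.comp_continuousOn (continuousOn_pi.2 fun i => (HF.eg i n).sm.continuousOn)
  have cf : ∀ n, ContinuousOn (f n) Ω := fun n => (HF.ef n).sm.continuousOn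
  have step : ∀ T R e : ℝ, 0 ≤ T → 0 < R → 0 < e → ∫ p, h p.2 * min (Φ (c * p.1)) T ∂ν ≤
      (∫ p, h p.2 * min (Φ (-p.1)) (A + B * R) ∂ν) + B / R * H * C + e := by
    intro T R e T0 R0 e0
    have D0 : 0 ≤ A + B * R := by positivity
    have t1 := hν (fun p => h p.2 * min (Φ (c * p.1)) T)
      (ch2.mul ((cc.comp (continuous_const.mul continuous_fst)).min continuous_const))
      ⟨H * T, fun p => by
        rw [abs_of_nonneg (mul_nonneg (h0 _) (le_min (Φ0 _) T0))]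
        exact mul_le_mul (hH' _) (min_le_right _ _) (le_min (Φ0 _) T0) H0⟩
    have t2 := hν (fun p => h p.2 * min (Φ (-p.1)) (A + B * R))
      (ch2.mul ((cc.comp continuous_fst.neg).min continuous_const))
      ⟨H * (A + B * R), fun p => by
        rw [abs_of_nonneg (mul_nonneg (h0 _) (le_min (Φ0 _) D0))]
        exact mul_le_mul (hH' _) (min_le_right _ _) (le_min (Φ0 _) D0) H0⟩
    refine le_of_tendsto_of_tendsto t1 ((t2.add_const _).add_const _) ?_
    filter_upwards [con2 HF hψ.c hψ.k hψ.t hψ.p ch h0 hH' L0 hL cΦ Φ0 A0 B0 hAB c0 c1 e0, hC]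
      with n n1 n2
    have m1 : IJ ψ (fun z => h (fun i => g i n z) * min (Φ (c * f n z)) T) ≤
        IJ ψ (fun z => h (fun i => g i n z) * Φ (c * f n z)) :=
      IJ_mono HF.sub hψ ((cw n).mul ((cc.comp_continuousOn (continuousOn_const.mul (cf n))).inf
        continuousOn_const)) ((cw n).mul (cc.comp_continuousOn (continuousOn_const.mul (cf n))))
        fun z _ => mul_le_mul_of_nonneg_left (min_le_left _ _) (h0 _)
    have cm : ContinuousOn (fun z => h (fun i => g i n z) * min (Φ (-f n z)) (A + B * R)) Ω :=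
      (cw n).mul ((cc.comp_continuousOn (cf n).neg).inf continuousOn_const)
    have m2 : IJ ψ (fun z => h (fun i => g i n z) * Φ (-f n z)) ≤
        IJ ψ (fun z => h (fun i => g i n z) * min (Φ (-f n z)) (A + B * R) +
          (B / R * H) * f n z ^ 2) := by
      refine IJ_mono HF.sub hψ ((cw n).mul (cc.comp_continuousOn (cf n).neg))
        (cm.add (continuousOn_const.mul ((cf n).pow 2))) fun z _ => ?_
      obtain ⟨x, hx⟩ : ∃ x, x = f n z := ⟨_, rfl⟩
      obtain ⟨a, ha⟩ : ∃ a, a = h (fun i => g i n z) := ⟨_, rfl⟩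
      rw [← hx, ← ha]
      have a0 : 0 ≤ a := by rw [ha]; exact h0 _
      have aH : a ≤ H := by rw [ha]; exact hH' _
      have pt : Φ (-x) ≤ min (Φ (-x)) (A + B * R) + B / R * x ^ 2 := by
        rcases le_total (Φ (-x)) (A + B * R) with h | h
        · rw [min_eq_left h]
          have : 0 ≤ B / R * x ^ 2 := by positivity
          linarith
        · rw [min_eq_right h]
          have h1 := hAB (-x)
          rw [abs_neg] at h1
          have h2 : |x| - R ≤ x ^ 2 / R := by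
            rw [le_div_iff₀ R0, ← sq_abs x]
            nlinarith [sq_nonneg (|x| - R), abs_nonneg x]
          have h3 : B * (|x| - R) ≤ B * (x ^ 2 / R) := mul_le_mul_of_nonneg_left h2 B0
          calc Φ (-x) ≤ A + B * |x| := h1
            _ = A + B * R + B * (|x| - R) := by ring
            _ ≤ A + B * R + B * (x ^ 2 / R) := by linarith
            _ = A + B * R + B / R * x ^ 2 := by ring
      calc a * Φ (-x) ≤ a * (min (Φ (-x)) (A + B * R) + B / R * x ^ 2) :=
            mul_le_mul_of_nonneg_left pt a0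
        _ = a * min (Φ (-x)) (A + B * R) + a * (B / R * x ^ 2) := by ring
        _ ≤ a * min (Φ (-x)) (A + B * R) + H * (B / R * x ^ 2) := by gcongr
        _ = _ := by ring
    have cq : ContinuousOn (fun z => f n z ^ 2) Ω := (cf n).pow 2
    rw [IJ_add HF.sub hψ cm cq] at m2
    have m3 : B / R * H * IJ ψ (fun z => f n z ^ 2) ≤ B / R * H * C := by gcongr
    show IJ ψ (fun z => h (fun i => g i n z) * min (Φ (c * f n z)) T) ≤
      IJ ψ (fun z => h (fun i => g i n z) * min (Φ (-f n z)) (A + B * R)) + B / R * H * C + e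
    have m5 : IJ ψ (fun z => h (fun i => g i n z) * Φ (-f n z)) ≤
      IJ ψ (fun z => h (fun i => g i n z) * min (Φ (-f n z)) (A + B * R)) +
        B / R * H * IJ ψ (fun z => f n z ^ 2) := m2
    linarith
  have step' : ∀ T R : ℝ, 0 ≤ T → 0 < R → ∫ p, h p.2 * min (Φ (c * p.1)) T ∂ν ≤
      (∫ p, h p.2 * min (Φ (-p.1)) (A + B * R) ∂ν) + B / R * H * C := fun T R T0 R0 =>
    le_of_forall_pos_le_add fun e e0 => step T R e T0 R0 e0
  obtain ⟨W, hW⟩ : ∃ W, W = ∫⁻ p, ENNReal.ofReal (h p.2 * Φ (-p.1)) ∂ν := ⟨_, rfl⟩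
  rw [← hW]
  have step2 : ∀ T : ℝ, 0 ≤ T → ∫⁻ p, ENNReal.ofReal (h p.2 * min (Φ (c * p.1)) T) ∂ν ≤ W := by
    intro T T0
    have i1 : Integrable (fun p : ℝ × (Fin k → ℝ) => h p.2 * min (Φ (c * p.1)) T) ν :=
      Integrable.of_bound (ch2.mul ((cc.comp (continuous_const.mul continuous_fst)).min
        continuous_const)).aestronglyMeasurable (H * T) (ae_of_all _ fun p => by
          rw [Real.norm_eq_abs, abs_of_nonneg (mul_nonneg (h0 _) (le_min (Φ0 _) T0))]
          exact mul_le_mul (hH' _) (min_le_right _ _) (le_min (Φ0 _) T0) H0)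
    rw [← ofReal_integral_eq_lintegral_ofReal i1
      (ae_of_all _ fun p => mul_nonneg (h0 _) (le_min (Φ0 _) T0))]
    have b : ∀ R : ℝ, 0 < R → ENNReal.ofReal (∫ p, h p.2 * min (Φ (c * p.1)) T ∂ν) ≤
        W + ENNReal.ofReal (B / R * H * C) := by
      intro R R0
      have D0 : 0 ≤ A + B * R := by positivity
      have i2 : Integrable (fun p : ℝ × (Fin k → ℝ) => h p.2 * min (Φ (-p.1)) (A + B * R)) ν :=
        Integrable.of_bound (ch2.mul ((cc.comp continuous_fst.neg).min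
          continuous_const)).aestronglyMeasurable (H * (A + B * R)) (ae_of_all _ fun p => by
            rw [Real.norm_eq_abs, abs_of_nonneg (mul_nonneg (h0 _) (le_min (Φ0 _) D0))]
            exact mul_le_mul (hH' _) (min_le_right _ _) (le_min (Φ0 _) D0) H0)
      refine (ENNReal.ofReal_le_ofReal (step' T R T0 R0)).trans
        (ENNReal.ofReal_add_le.trans (add_le_add ?_ le_rfl))
      rw [ofReal_integral_eq_lintegral_ofReal i2
        (ae_of_all _ fun p => mul_nonneg (h0 _) (le_min (Φ0 _) D0)), hW]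
      exact lintegral_mono fun p => ENNReal.ofReal_le_ofReal
        (mul_le_mul_of_nonneg_left (min_le_left _ _) (h0 _))
    have tl : Tendsto (fun R : ℝ => W + ENNReal.ofReal (B / R * H * C)) atTop (𝓝 (W + 0)) := by
      refine Tendsto.const_add W ?_
      have : Tendsto (fun R : ℝ => B / R * H * C) atTop (𝓝 (0 * H * C)) :=
        ((tendsto_const_nhds.div_atTop tendsto_id).mul_const H).mul_const C
      rw [zero_mul, zero_mul] at this
      have h2 := ENNReal.tendsto_ofReal this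
      rw [ENNReal.ofReal_zero] at h2
      exact h2
    rw [add_zero] at tl
    refine ge_of_tendsto tl ?_
    filter_upwards [eventually_gt_atTop 0] with R R0 using b R R0
  have mc : ∀ n : ℕ, Measurable fun p : ℝ × (Fin k → ℝ) =>
      ENNReal.ofReal (h p.2 * min (Φ (c * p.1)) n) := fun n =>
    (ch2.mul ((cc.comp (continuous_const.mul continuous_fst)).min
      continuous_const)).measurable.ennreal_ofReal
  have t := lintegral_tendsto_of_tendsto_of_monotone (μ := ν)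
    (f := fun (n : ℕ) p => ENNReal.ofReal (h p.2 * min (Φ (c * p.1)) n))
    (F := fun p => ENNReal.ofReal (h p.2 * Φ (c * p.1))) (fun n => (mc n).aemeasurable)
    (ae_of_all _ fun x m n hmn => ENNReal.ofReal_le_ofReal
      (mul_le_mul_of_nonneg_left (min_le_min le_rfl (by exact_mod_cast hmn)) (h0 _)))
    (ae_of_all _ fun x => by
      refine tendsto_const_nhds.congr' ?_
      obtain ⟨N, hN⟩ := exists_nat_ge (Φ (c * x.1))
      filter_upwards [eventually_ge_atTop N] with n hn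
      rw [min_eq_left (hN.trans (by exact_mod_cast hn))])
  exact le_of_tendsto' t fun n => step2 n n.cast_nonneg

lemma pi_sq (y : Fin k → ℝ) : ‖y‖ ^ 2 ≤ ∑ i, y i ^ 2 := by
  have h0 : 0 ≤ ∑ i, y i ^ 2 := Finset.sum_nonneg fun i _ => sq_nonneg _
  have h1 : ‖y‖ ≤ √(∑ i, y i ^ 2) := by
    rw [pi_norm_le_iff_of_nonneg (Real.sqrt_nonneg _)]
    intro i
    rw [Real.norm_eq_abs, ← Real.sqrt_sq_eq_abs]
    exact Real.sqrt_le_sqrt (Finset.single_le_sum (f := fun i => y i ^ 2)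
      (fun i _ => sq_nonneg _) (Finset.mem_univ i))
  calc ‖y‖ ^ 2 ≤ √(∑ i, y i ^ 2) ^ 2 := pow_le_pow_left₀ (norm_nonneg _) h1 2
    _ = _ := Real.sq_sqrt h0

/-- Borel sets of values of the slow forms, linear growth -/
lemma con4 (HF : Fo Ω t f s g) (hψ : Te Ω ψ) {ν : Measure (ℝ × (Fin k → ℝ))}
    [IsFiniteMeasure ν] (hν : Lim ψ f g ν)
    {Φ : ℝ → ℝ} (cΦ : ConvexOn ℝ Set.univ Φ) (Φ0 : ∀ x, 0 ≤ Φ x) {A B : ℝ} (A0 : 0 ≤ A)
    (B0 : 0 ≤ B) (hAB : ∀ x, Φ x ≤ A + B * |x|) {c : ℝ} (c0 : 0 ≤ c) (c1 : c < 2 / 5)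
    {E : Set (Fin k → ℝ)} (mE : MeasurableSet E) :
    ∫⁻ p in Prod.snd ⁻¹' E, ENNReal.ofReal (Φ (c * p.1)) ∂ν ≤
      ∫⁻ p in Prod.snd ⁻¹' E, ENNReal.ofReal (Φ (-p.1)) ∂ν := by
  have cc := conv_cont cΦ
  have m1 : Measurable fun p : ℝ × (Fin k → ℝ) => ENNReal.ofReal (Φ (c * p.1)) :=
    (cc.comp (continuous_const.mul continuous_fst)).measurable.ennreal_ofReal
  have m2 : Measurable fun p : ℝ × (Fin k → ℝ) => ENNReal.ofReal (Φ (-p.1)) :=
    (cc.comp continuous_fst.neg).measurable.ennreal_ofReal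
  -- open sets
  have op : ∀ U : Set (Fin k → ℝ), IsOpen U →
      ∫⁻ p in Prod.snd ⁻¹' U, ENNReal.ofReal (Φ (c * p.1)) ∂ν ≤
        ∫⁻ p in Prod.snd ⁻¹' U, ENNReal.ofReal (Φ (-p.1)) ∂ν := by
    intro U hU
    rcases Set.eq_empty_or_nonempty Uᶜ with hUc | hUc
    · have := con3 HF hψ hν (h := fun _ => 1) (H := 1) (L := 0) continuous_const
        (fun _ => zero_le_one) (fun _ => le_rfl) le_rfl (fun y y' => by simp) cΦ Φ0 A0 B0 hAB c0 c1
      have hU' : U = Set.univ := Set.compl_empty_iff.1 hUc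
      rw [hU', Set.preimage_univ, Measure.restrict_univ]
      simpa using this
    · obtain ⟨h, hh⟩ : ∃ h : ℕ → (Fin k → ℝ) → ℝ, h = fun (m : ℕ) y =>
        min 1 ((m : ℝ) * infDist y Uᶜ) := ⟨_, rfl⟩
      have hc : ∀ m, Continuous (h m) := fun m => by
        rw [hh]
        exact continuous_const.min (continuous_const.mul (continuous_infDist_pt _))
      have h0 : ∀ m y, 0 ≤ h m y := fun m y => by
        rw [hh]
        exact le_min zero_le_one (mul_nonneg m.cast_nonneg infDist_nonneg)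
      have h1 : ∀ m y, h m y ≤ 1 := fun m y => by rw [hh]; exact min_le_left _ _
      have hl : ∀ m y y', (h m y - h m y') ^ 2 ≤ (m : ℝ) ^ 2 * ∑ i, (y i - y' i) ^ 2 := by
        intro m y y'
        have q1 : |h m y - h m y'| ≤ (m : ℝ) * dist y y' := by
          rw [hh]
          refine (abs_min_sub_min_le_max _ _ _ _).trans ?_
          rw [sub_self, abs_zero]
          refine max_le (by positivity) ?_
          rw [← mul_sub, abs_mul, abs_of_nonneg m.cast_nonneg]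
          refine mul_le_mul_of_nonneg_left ?_ m.cast_nonneg
          have := (lipschitz_infDist_pt Uᶜ).dist_le_mul y y'
          rw [NNReal.coe_one, one_mul, Real.dist_eq] at this
          exact this
        have q2 := pi_sq (y - y')
        calc (h m y - h m y') ^ 2 = |h m y - h m y'| ^ 2 := (sq_abs _).symm
          _ ≤ ((m : ℝ) * dist y y') ^ 2 := pow_le_pow_left₀ (abs_nonneg _) q1 2
          _ = (m : ℝ) ^ 2 * ‖y - y'‖ ^ 2 := by rw [dist_eq_norm]; ring
          _ ≤ _ := by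
              refine mul_le_mul_of_nonneg_left q2 (by positivity)
      have mono : ∀ y, Monotone fun m => h m y := by
        intro y a b hab
        rw [hh]
        refine min_le_min le_rfl (mul_le_mul_of_nonneg_right (by exact_mod_cast hab)
          infDist_nonneg)
      have lim : ∀ y, Tendsto (fun m => h m y) atTop (𝓝 (U.indicator (fun _ => (1 : ℝ)) y)) := by
        intro y
        by_cases hy : y ∈ U
        · rw [Set.indicator_of_mem hy]
          have d0 : 0 < infDist y Uᶜ :=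
            (hU.isClosed_compl.notMem_iff_infDist_pos hUc).1 fun h => h hy
          obtain ⟨N, hN⟩ := exists_nat_ge (1 / infDist y Uᶜ)
          refine tendsto_const_nhds.congr' ?_
          filter_upwards [eventually_ge_atTop N] with m hm'
          rw [hh]
          simp only
          rw [min_eq_left]
          have h2 : 1 / infDist y Uᶜ ≤ m := hN.trans (by exact_mod_cast hm')
          rwa [div_le_iff₀ d0] at h2
        · rw [Set.indicator_of_notMem hy]
          have d0 : infDist y Uᶜ = 0 := infDist_zero_of_mem hy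
          refine tendsto_const_nhds.congr fun m => ?_
          rw [hh]
          simp [d0]
      have conv : ∀ {G : ℝ × (Fin k → ℝ) → ℝ}, Continuous G → (∀ p, 0 ≤ G p) →
          Tendsto (fun m => ∫⁻ p, ENNReal.ofReal (h m p.2 * G p) ∂ν) atTop
            (𝓝 (∫⁻ p in Prod.snd ⁻¹' U, ENNReal.ofReal (G p) ∂ν)) := by
        intro G cG G0
        rw [← lintegral_indicator (measurable_snd hU.measurableSet)]
        refine lintegral_tendsto_of_tendsto_of_monotone (fun m =>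
          (((hc m).comp continuous_snd).mul cG).measurable.ennreal_ofReal.aemeasurable)
          (ae_of_all _ fun p a b hab => ENNReal.ofReal_le_ofReal
            (mul_le_mul_of_nonneg_right (mono _ hab) (G0 p))) (ae_of_all _ fun p => ?_)
        have e : (Prod.snd ⁻¹' U).indicator (fun p : ℝ × (Fin k → ℝ) => ENNReal.ofReal (G p)) p =
            ENNReal.ofReal (U.indicator (fun _ => (1 : ℝ)) p.2 * G p) := by
          by_cases hp : p.2 ∈ U
          · rw [Set.indicator_of_mem (show p ∈ Prod.snd ⁻¹' U from hp),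
              Set.indicator_of_mem hp, one_mul]
          · rw [Set.indicator_of_notMem (show p ∉ Prod.snd ⁻¹' U from hp),
              Set.indicator_of_notMem hp, zero_mul, ENNReal.ofReal_zero]
        rw [e]
        exact ENNReal.tendsto_ofReal ((lim p.2).mul_const _)
      refine le_of_tendsto_of_tendsto' (conv (cc.comp (continuous_const.mul continuous_fst))
        fun p => Φ0 _) (conv (cc.comp continuous_fst.neg) fun p => Φ0 _) fun m => ?_
      exact con3 HF hψ hν (hc m) (h0 m) (h1 m) (by positivity) (hl m) cΦ Φ0 A0 B0 hAB c0 c1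
  -- outer regularity
  obtain ⟨μ1, hμ1⟩ : ∃ μ1 : Measure (Fin k → ℝ), μ1 = (ν.withDensity fun p =>
    ENNReal.ofReal (Φ (c * p.1))).map Prod.snd := ⟨_, rfl⟩
  obtain ⟨μ2, hμ2⟩ : ∃ μ2 : Measure (Fin k → ℝ), μ2 = (ν.withDensity fun p =>
    ENNReal.ofReal (Φ (-p.1))).map Prod.snd := ⟨_, rfl⟩
  have a1 : ∀ {V : Set (Fin k → ℝ)}, MeasurableSet V → μ1 V =
      ∫⁻ p in Prod.snd ⁻¹' V, ENNReal.ofReal (Φ (c * p.1)) ∂ν := fun hV => by
    rw [hμ1, Measure.map_apply measurable_snd hV, withDensity_apply _ (measurable_snd hV)]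
  have a2 : ∀ {V : Set (Fin k → ℝ)}, MeasurableSet V → μ2 V =
      ∫⁻ p in Prod.snd ⁻¹' V, ENNReal.ofReal (Φ (-p.1)) ∂ν := fun hV => by
    rw [hμ2, Measure.map_apply measurable_snd hV, withDensity_apply _ (measurable_snd hV)]
  have fin2 : IsFiniteMeasure μ2 := by
    refine ⟨?_⟩
    rw [a2 MeasurableSet.univ, Set.preimage_univ, Measure.restrict_univ]
    have h2 := second HF hψ hν
    have h3 : ∫⁻ p, ENNReal.ofReal (Φ (-p.1)) ∂ν ≤
        ∫⁻ p, (ENNReal.ofReal (A + B) + ENNReal.ofReal B * ENNReal.ofReal (p.1 ^ 2)) ∂ν := by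
      refine lintegral_mono fun p => ?_
      rw [← ENNReal.ofReal_mul B0, ← ENNReal.ofReal_add (by positivity) (by positivity)]
      refine ENNReal.ofReal_le_ofReal ?_
      have h1 := hAB (-p.1)
      rw [abs_neg] at h1
      have h2 : |p.1| ≤ 1 + p.1 ^ 2 := by
        rw [← sq_abs p.1]
        nlinarith [sq_nonneg (|p.1| - 1), abs_nonneg p.1]
      have h3 := mul_le_mul_of_nonneg_left h2 B0
      linarith
    refine lt_of_le_of_lt h3 ?_
    rw [lintegral_add_left measurable_const, lintegral_const,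
      lintegral_const_mul _ (by fun_prop : Measurable fun p : ℝ × (Fin k → ℝ) =>
        ENNReal.ofReal (p.1 ^ 2))]
    refine ENNReal.add_lt_top.2 ⟨ENNReal.mul_lt_top ENNReal.ofReal_lt_top (measure_lt_top _ _),
      ENNReal.mul_lt_top ENNReal.ofReal_lt_top (lt_top_iff_ne_top.2 h2)⟩
  rw [← a1 mE, ← a2 mE, E.measure_eq_iInf_isOpen μ2]
  refine le_iInf fun U => le_iInf fun hEU => le_iInf fun hU => ?_
  calc μ1 E ≤ μ1 U := measure_mono hEU
    _ ≤ μ2 U := by rw [a1 hU.measurableSet, a2 hU.measurableSet]; exact op U hU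

/-- **conditional quasi-symmetry of the joint limit laws** -/
theorem con5 (HF : Fo Ω t f s g) (hψ : Te Ω ψ) {ν : Measure (ℝ × (Fin k → ℝ))}
    [IsFiniteMeasure ν] (hν : Lim ψ f g ν)
    {Φ : ℝ → ℝ} (cΦ : ConvexOn ℝ Set.univ Φ) (Φ0 : ∀ x, 0 ≤ Φ x)
    {E : Set (Fin k → ℝ)} (mE : MeasurableSet E) :
    ∫⁻ p in Prod.snd ⁻¹' E, ENNReal.ofReal (Φ (2 / 5 * p.1)) ∂ν ≤
      ∫⁻ p in Prod.snd ⁻¹' E, ENNReal.ofReal (Φ (-p.1)) ∂ν := by
  have cc := conv_cont cΦ
  have main : ∀ c : ℝ, 0 ≤ c → c < 2 / 5 →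
      ∫⁻ p in Prod.snd ⁻¹' E, ENNReal.ofReal (Φ (c * p.1)) ∂ν ≤
      ∫⁻ p in Prod.snd ⁻¹' E, ENNReal.ofReal (Φ (-p.1)) ∂ν := by
    intro c c0 c1
    obtain ⟨G, gc, g0, gl, gm, gt⟩ := lin_approx cΦ Φ0
    have up : ∀ m x, G m x ≤ Φ x := fun m x => (gm x).ge_of_tendsto (gt x) m
    have t := lintegral_tendsto_of_tendsto_of_monotone (μ := ν.restrict (Prod.snd ⁻¹' E))
      (f := fun (n : ℕ) p => ENNReal.ofReal (G n (c * p.1)))
      (F := fun p => ENNReal.ofReal (Φ (c * p.1)))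
      (fun n => ((conv_cont (gc n)).comp
        (continuous_const.mul continuous_fst)).measurable.ennreal_ofReal.aemeasurable)
      (ae_of_all _ fun x m n hmn => ENNReal.ofReal_le_ofReal (gm _ hmn))
      (ae_of_all _ fun x => ENNReal.tendsto_ofReal (gt _))
    refine le_of_tendsto' t fun n => ?_
    obtain ⟨A, B, A0, B0, hAB⟩ := gl n
    refine (con4 HF hψ hν (gc n) (g0 n) A0 B0 hAB c0 c1 mE).trans ?_
    exact lintegral_mono fun x => ENNReal.ofReal_le_ofReal (up _ _)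
  obtain ⟨c, hc⟩ : ∃ c : ℕ → ℝ, c = fun n : ℕ => 2 / 5 - 2 / 5 / ((n : ℝ) + 1) := ⟨_, rfl⟩
  have cl : Tendsto c atTop (𝓝 (2 / 5)) := by
    have h1 : Tendsto (fun n : ℕ => (2 / 5 : ℝ) / ((n : ℝ) + 1)) atTop (𝓝 0) :=
      tendsto_const_nhds.div_atTop (tendsto_atTop_add_const_right _ _ tendsto_natCast_atTop_atTop)
    have := h1.const_sub (2 / 5)
    rw [sub_zero] at this
    rw [hc]
    exact this
  have c0 : ∀ n, 0 ≤ c n := fun n => by
    rw [hc]
    have h1 : (1 : ℝ) ≤ (n : ℝ) + 1 := by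
      have : (0 : ℝ) ≤ n := n.cast_nonneg
      linarith
    have : (2 / 5 : ℝ) / ((n : ℝ) + 1) ≤ 2 / 5 := div_le_self (by norm_num) h1
    simp only
    linarith
  have c1 : ∀ n, c n < 2 / 5 := fun n => by
    rw [hc]
    have : (0 : ℝ) < 2 / 5 / ((n : ℝ) + 1) := by positivity
    simp only
    linarith
  have lim : ∀ p : ℝ × (Fin k → ℝ), liminf (fun n => ENNReal.ofReal (Φ (c n * p.1))) atTop =
      ENNReal.ofReal (Φ (2 / 5 * p.1)) := fun p =>
    (ENNReal.tendsto_ofReal ((cc.tendsto _).comp (cl.mul_const p.1))).liminf_eq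
  calc ∫⁻ p in Prod.snd ⁻¹' E, ENNReal.ofReal (Φ (2 / 5 * p.1)) ∂ν =
      ∫⁻ p in Prod.snd ⁻¹' E, liminf (fun n => ENNReal.ofReal (Φ (c n * p.1))) atTop ∂ν := by
        simp only [lim]
    _ ≤ liminf (fun n => ∫⁻ p in Prod.snd ⁻¹' E, ENNReal.ofReal (Φ (c n * p.1)) ∂ν) atTop :=
        lintegral_liminf_le fun n =>
          (cc.comp (continuous_const.mul continuous_fst)).measurable.ennreal_ofReal
    _ ≤ liminf (fun _ : ℕ => ∫⁻ p in Prod.snd ⁻¹' E, ENNReal.ofReal (Φ (-p.1)) ∂ν) atTop :=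
        liminf_le_liminf (Eventually.of_forall fun n => main _ (c0 n) (c1 n))
    _ = ∫⁻ p in Prod.snd ⁻¹' E, ENNReal.ofReal (Φ (-p.1)) ∂ν := liminf_const _

end

end Pool.Agent.X127.HY
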