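import Pool.Agent.X127.HY.Conf

/-! # The spherical function and the mean value property on the hyperbolic plane -/

set_option autoImplicit false
open MeasureTheory Filter Topology Metric
open scoped ContDiff ENNReal

namespace Pool.Agent.X127.HY

open Pool.Agent.TH298.Sch (X er et norm_X X_cont dd X_dr X_dt)
open Pool.Agent.X127.PB (lp)
open TH259.NS (B)

noncomputable section

/-- the open upper half plane -/
def HH : Set ℂ := {z | 0 < z.im}

lemma HH_open : IsOpen HH := isOpen_lt continuous_const Complex.continuous_im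

/-- the reference eigenfunction `y^{1/2} cos (t log y)` -/
def ef (t : ℝ) (z : ℂ) : ℝ := Real.exp (Real.log z.im / 2) * Real.cos (t * Real.log z.im)

lemma ef_smooth (t : ℝ) : ContDiffOn ℝ ∞ (ef t) HH := by
  have h1 : ContDiffOn ℝ ∞ (fun z : ℂ => Real.log z.im) HH :=
    Complex.imCLM.contDiff.contDiffOn.log fun z hz => (ne_of_gt hz)
  exact (h1.div_const 2).exp.mul (contDiffOn_const.mul h1).cos

lemma lp_im {g g1 g2 : ℝ → ℝ} (h1 : ∀ y, 0 < y → HasDerivAt g (g1 y) y)
    (h2 : ∀ y, 0 < y → HasDerivAt g1 (g2 y) y) {z : ℂ} (hz : z ∈ HH) :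
    lp (fun w => g w.im) z = g2 z.im := by
  have e : ∀ k : ℂ, (fun w => fderiv ℝ (fun w : ℂ => g w.im) w k) =ᶠ[𝓝 z]
      fun w => g1 w.im * k.im := by
    intro k
    filter_upwards [HH_open.mem_nhds hz] with w hw
    have h3 : HasFDerivAt (fun w : ℂ => g w.im) (g1 w.im • Complex.imCLM) w :=
      (h1 w.im hw).comp_hasFDerivAt w Complex.imCLM.hasFDerivAt
    rw [h3.fderiv]
    simp
  have e2 : ∀ k : ℂ, fderiv ℝ (fun w : ℂ => g1 w.im * k.im) z k = g2 z.im * k.im * k.im := by
    intro k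
    have h3 : HasFDerivAt (fun w : ℂ => g1 w.im) (g2 z.im • Complex.imCLM) z :=
      (h2 z.im hz).comp_hasFDerivAt z Complex.imCLM.hasFDerivAt
    rw [(h3.mul_const k.im).fderiv]
    simp
    ring
  unfold Pool.Agent.X127.PB.lp
  rw [(e 1).fderiv_eq, (e Complex.I).fderiv_eq, e2, e2]
  simp

lemma ef_lp (t : ℝ) {z : ℂ} (hz : z ∈ HH) :
    -(z.im ^ 2 * lp (ef t) z) = (1 / 4 + t ^ 2) * ef t z := by
  have h := lp_im (g := fun y => Real.exp (Real.log y / 2) * Real.cos (t * Real.log y))
    (g1 := fun y => y⁻¹ * (Real.exp (Real.log y / 2) *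
      (Real.cos (t * Real.log y) / 2 - t * Real.sin (t * Real.log y))))
    (g2 := fun y => -((1 / 4 + t ^ 2) * (y⁻¹ * y⁻¹ *
      (Real.exp (Real.log y / 2) * Real.cos (t * Real.log y))))) ?_ ?_ hz
  · have e : lp (ef t) z = lp (fun w : ℂ => Real.exp (Real.log w.im / 2) *
      Real.cos (t * Real.log w.im)) z := rfl
    rw [e, h]
    have : z.im ≠ 0 := ne_of_gt hz
    unfold ef
    field_simp
  · intro y hy
    have l := Real.hasDerivAt_log hy.ne'
    have h1 := ((l.div_const 2).exp).mul ((l.const_mul t).cos)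
    refine h1.congr_deriv ?_
    ring
  · intro y hy
    have l := Real.hasDerivAt_log hy.ne'
    have h1 := ((l.div_const 2).exp).mul (((l.const_mul t).cos.div_const 2).sub
      (((l.const_mul t).sin).const_mul t))
    have h2 := (hasDerivAt_inv hy.ne').mul h1
    refine h2.congr_deriv ?_
    have := hy.ne'
    simp only [Pi.mul_apply, Pi.sub_apply]
    field_simp
    ring

lemma pt_I (w : ℂ) : pt Complex.I w = cay w := by unfold pt; simp

lemma pt_cont {z : ℂ} : ContinuousOn (pt z) D := fun w hw =>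
  (((cay_d hw).const_mul (z.im : ℂ)).const_add (z.re : ℂ)).continuousAt.continuousWithinAt

lemma cay_smooth : ContDiffOn ℝ ∞ cay D := by
  intro w hw
  have h := den_ne hw
  unfold cay
  refine ContDiffAt.contDiffWithinAt ?_
  have h1 : ContDiffAt ℂ ∞ (fun w : ℂ => (w + Complex.I) / (1 + Complex.I * w)) w :=
    ContDiffAt.fun_div (contDiffAt_id.add contDiffAt_const)
      (contDiffAt_const.add (contDiffAt_const.mul contDiffAt_id)) h
  exact h1.restrict_scalars ℝ

lemma pt_smooth (z : ℂ) : ContDiffOn ℝ ∞ (pt z) D := by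
  unfold pt
  exact contDiffOn_const.add (contDiffOn_const.mul cay_smooth)

lemma pre_open {Ω : Set ℂ} (hΩ : IsOpen Ω) (z : ℂ) : IsOpen (D ∩ pt z ⁻¹' Ω) :=
  pt_cont.isOpen_inter_preimage D_open hΩ

/-- the circle mean of the reference eigenfunction -/
def ph (t r : ℝ) : ℝ := (2 * Real.pi)⁻¹ * I0 (fun w => ef t (cay w)) r

/-- a solution in disc coordinates -/
lemma sol {Ω : Set ℂ} (hΩ : IsOpen Ω) (hH : Ω ⊆ HH) {f : ℂ → ℝ} (sf : ContDiffOn ℝ ∞ f Ω) {t : ℝ}
    (he : ∀ z ∈ Ω, -(z.im ^ 2 * lp f z) = (1 / 4 + t ^ 2) * f z) {z : ℂ} (hz : z ∈ HH) {w : ℂ}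
    (hw : w ∈ D) (hp : pt z w ∈ Ω) : lp (fun w => f (pt z w)) w =
      -((1 / 4 + t ^ 2) * (4 / (1 - ‖w‖ ^ 2) ^ 2) * f (pt z w)) := by
  rw [lp_cay hΩ sf hw hp, ← cay1_norm hw]
  have h1 := he _ hp
  have h2 : 0 < (pt z w).im := hH hp
  have h3 := pt_im z w
  have h4 := cay_im_pos hw
  have h5 : 0 < z.im := hz
  have h6 : lp f (pt z w) = -((1 / 4 + t ^ 2) * f (pt z w)) / (z.im * (cay w).im) ^ 2 := by
    rw [h3] at h1
    rw [eq_div_iff (by positivity)]
    linarith
  rw [h6]
  field_simp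

/-- **the mean value property** -/
theorem mv {Ω : Set ℂ} (hΩ : IsOpen Ω) (hH : Ω ⊆ HH) {f : ℂ → ℝ} (sf : ContDiffOn ℝ ∞ f Ω) {t : ℝ}
    (he : ∀ z ∈ Ω, -(z.im ^ 2 * lp f z) = (1 / 4 + t ^ 2) * f z) {z : ℂ} (hz : z ∈ HH)
    {r : ℝ} (r0 : 0 < r) (r1 : r < 1) (hp : ∀ w, ‖w‖ ≤ r → pt z w ∈ Ω) :
    ∫ θ in (-Real.pi)..Real.pi, f (pt z (X r θ)) = 2 * Real.pi * ph t r * f z := by
  have pp := Real.pi_pos
  have inD : ∀ w : ℂ, ‖w‖ ≤ r → w ∈ D := fun w hw => lt_of_le_of_lt hw r1
  obtain ⟨Q, hQ⟩ : ∃ Q, Q = (1 / 4 + t ^ 2) * (4 / (1 - r ^ 2) ^ 2) := ⟨_, rfl⟩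
  have r2 : 0 < 1 - r ^ 2 := by nlinarith
  have h := prop (D := D ∩ pt z ⁻¹' Ω) (pre_open hΩ z) (u := fun w => f (pt z w))
    (w := fun w => ef t (cay w)) (ρ := r)
    (sf.comp ((pt_smooth z).mono Set.inter_subset_left) fun w hw => hw.2)
    ((ef_smooth t).comp (cay_smooth.mono Set.inter_subset_left) fun w hw => cay_im_pos hw.1)
    r0 (fun w hw => by
      rw [mem_closedBall, dist_zero_right] at hw
      exact ⟨inD w hw, hp w hw⟩)
    (q := fun s => (1 / 4 + t ^ 2) * (4 / (1 - s ^ 2) ^ 2)) (Q := Q) (fun s hs => by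
      have h1 : 1 - r ^ 2 ≤ 1 - s ^ 2 := by nlinarith [hs.1, hs.2]
      rw [abs_of_nonneg (by positivity), hQ]
      gcongr)
    (fun x hx => sol hΩ hH sf he hz (inD x hx) (hp x hx))
    (fun x hx => by
      have h1 := sol HH_open subset_rfl (ef_smooth t) (fun z hz => ef_lp t hz)
        (z := Complex.I) (by show (0 : ℝ) < Complex.I.im; simp) (inD x hx)
        (by rw [pt_I]; exact cay_im_pos (inD x hx))
      simp only [pt_I] at h1
      exact h1)
    (by simp [cay_zero, ef]) (r := r) ⟨r0.le, le_rfl⟩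
  rw [pt_zero] at h
  unfold ph
  have e : ∫ θ in (-Real.pi)..Real.pi, f (pt z (X r θ)) = I0 (fun w => f (pt z w)) r := rfl
  rw [e, h]
  field_simp

/-- the mean of the height over circles -/
theorem mv_im {r : ℝ} (r0 : 0 < r) (r1 : r < 1) :
    ∫ θ in (-Real.pi)..Real.pi, (cay (X r θ)).im = 2 * Real.pi := by
  have inD : ∀ w : ℂ, ‖w‖ ≤ r → w ∈ D := fun w hw => lt_of_le_of_lt hw r1
  have sim : ContDiffOn ℝ ∞ (fun z : ℂ => z.im) HH := Complex.imCLM.contDiff.contDiffOn
  have h := prop (D := D) D_open (u := fun w => (cay w).im)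
    (w := fun _ => 1) (ρ := r)
    (sim.comp cay_smooth fun w hw => cay_im_pos hw)
    contDiffOn_const
    r0 (fun w hw => by
      rw [mem_closedBall, dist_zero_right] at hw
      exact inD w hw)
    (q := fun s => 0) (Q := 0) (fun s _ => by simp)
    (fun x hx => by
      have h1 := lp_cay HH_open sim (z := Complex.I) (inD x hx)
        (by rw [pt_I]; exact cay_im_pos (inD x hx))
      have h2 := lp_im (g := fun y => y) (g1 := fun _ => 1) (g2 := fun _ => 0)
        (fun y _ => hasDerivAt_id y) (fun y _ => hasDerivAt_const y 1)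
        (z := cay x) (cay_im_pos (inD x hx))
      simp only [pt_I] at h1
      rw [h1, h2]
      simp)
    (fun x hx => by
      unfold Pool.Agent.X127.PB.lp
      simp)
    rfl (r := r) ⟨r0.le, le_rfl⟩
  have e : ∫ θ in (-Real.pi)..Real.pi, (cay (X r θ)).im = I0 (fun w => (cay w).im) r := rfl
  rw [e, h]
  unfold I0
  rw [cay_zero]
  simp
  ring

lemma im_formula (r θ : ℝ) : (cay (X r θ)).im =
    (1 - r ^ 2) / (1 - 2 * (r * Real.sin θ) + r ^ 2) := by
  rw [cay_im, den_sq, norm_X, sq_abs]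
  have : (X r θ).im = r * Real.sin θ := by
    unfold X
    rw [Complex.im_ofReal_mul]
    simp [-Complex.ofReal_sin, -Complex.ofReal_cos]
  rw [this]

lemma den_pos {r θ : ℝ} (r0 : 0 ≤ r) (r1 : r < 1) : 0 < 1 - 2 * (r * Real.sin θ) + r ^ 2 := by
  have h1 := Real.sin_le_one θ
  have h2 : r * Real.sin θ ≤ r := mul_le_of_le_one_right r0 h1
  nlinarith [sq_nonneg (1 - r)]

/-- **asymptotics of the spherical function** -/
theorem ker_lim {s : ℝ} (hs : 0 < s) : Tendsto (fun t : ℝ => ph t (s / (2 * t))) atTop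
    (𝓝 (B 0 (s ^ 2 / 4))) := by
  have pp := Real.pi_pos
  have hr : Tendsto (fun t : ℝ => s / (2 * t)) atTop (𝓝 0) :=
    tendsto_const_nhds.div_atTop (tendsto_id.const_mul_atTop two_pos)
  have e1 : ∀ᶠ t : ℝ in atTop, 0 < t ∧ s / (2 * t) ≤ 1 / 3 := by
    have := hr.eventually (eventually_le_nhds (show (0 : ℝ) < 1 / 3 by norm_num))
    filter_upwards [eventually_gt_atTop 0, this] with t h1 h2 using ⟨h1, h2⟩
  have lim : Tendsto (fun t : ℝ => ∫ θ in (-Real.pi)..Real.pi, ef t (cay (X (s / (2 * t)) θ)))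
      atTop (𝓝 (∫ θ in (-Real.pi)..Real.pi, Real.cos (s * Real.sin θ))) := by
    refine intervalIntegral.tendsto_integral_filter_of_dominated_convergence
      (fun _ => Real.exp 2) ?_ ?_ intervalIntegrable_const ?_
    · filter_upwards [e1] with t ht
      have r1 : s / (2 * t) < 1 := by linarith [ht.2]
      have r0 : 0 < s / (2 * t) := div_pos hs (by linarith [ht.1])
      have c : Continuous fun θ => ef t (cay (X (s / (2 * t)) θ)) := by
        have h1 : Continuous fun θ => X (s / (2 * t)) θ :=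
          X_cont.comp (continuous_const.prodMk continuous_id)
        have h2 : Continuous fun θ => cay (X (s / (2 * t)) θ) :=
          cay_smooth.continuousOn.comp_continuous h1 fun θ => by
            show ‖X (s / (2 * t)) θ‖ < 1
            rw [norm_X, abs_of_pos r0]; exact r1
        exact (ef_smooth t).continuousOn.comp_continuous h2 fun θ => cay_im_pos (by
            show ‖X (s / (2 * t)) θ‖ < 1
            rw [norm_X, abs_of_pos r0]; exact r1)
      exact c.aestronglyMeasurable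
    · filter_upwards [e1] with t ht
      refine ae_of_all _ fun θ _ => ?_
      have r1 : s / (2 * t) < 1 := by linarith [ht.2]
      have r0 : 0 < s / (2 * t) := div_pos hs (by linarith [ht.1])
      obtain ⟨r, hr⟩ : ∃ r, r = s / (2 * t) := ⟨_, rfl⟩
      rw [← hr] at r1 r0 ⊢
      have hr3 : r ≤ 1 / 3 := by rw [hr]; exact ht.2
      have h1 : 0 < (cay (X r θ)).im := cay_im_pos (by
        show ‖X r θ‖ < 1
        rw [norm_X, abs_of_pos r0]; exact r1)
      have h2 : (cay (X r θ)).im ≤ 4 := by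
        rw [im_formula, div_le_iff₀ (den_pos r0.le r1)]
        have h1 := Real.sin_le_one θ
        have h2 : r * Real.sin θ ≤ r := mul_le_of_le_one_right r0.le h1
        nlinarith
      unfold ef
      rw [Real.norm_eq_abs, abs_mul, abs_of_pos (Real.exp_pos _)]
      calc Real.exp (Real.log (cay (X r θ)).im / 2) * |Real.cos (t * Real.log (cay (X r θ)).im)| ≤
          Real.exp (Real.log (cay (X r θ)).im / 2) * 1 := by
            gcongr; exact Real.abs_cos_le_one _
        _ ≤ Real.exp 2 := by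
            rw [mul_one]
            apply Real.exp_le_exp.2
            have := Real.log_le_sub_one_of_pos h1
            linarith
    · refine ae_of_all _ fun θ _ => ?_
      obtain ⟨L, hL⟩ : ∃ L : ℝ → ℝ, L = fun r => Real.log ((1 - r ^ 2) /
        (1 - 2 * (r * Real.sin θ) + r ^ 2)) := ⟨_, rfl⟩
      have L0 : L 0 = 0 := by rw [hL]; simp
      have dL : HasDerivAt L (2 * Real.sin θ) 0 := by
        rw [hL]
        have h1 : HasDerivAt (fun r : ℝ => 1 - r ^ 2) 0 0 := by
          refine ((hasDerivAt_pow 2 (0 : ℝ)).const_sub 1).congr_deriv ?_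
          simp
        have h2 : HasDerivAt (fun r : ℝ => 1 - 2 * (r * Real.sin θ) + r ^ 2)
            (-(2 * Real.sin θ)) 0 := by
          refine (((((hasDerivAt_id (0 : ℝ)).mul_const (Real.sin θ)).const_mul 2).const_sub 1).add
            (hasDerivAt_pow 2 (0 : ℝ))).congr_deriv ?_
          simp
        have h3 := (h1.fun_div h2 (by simp)).log (by simp)
        refine h3.congr_deriv ?_
        simp
      have tl : Tendsto (fun t : ℝ => t * L (s / (2 * t))) atTop (𝓝 (s * Real.sin θ)) := by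
        have h1 := dL.tendsto_slope_zero
        simp only [zero_add, L0, sub_zero, smul_eq_mul] at h1
        have h2 : Tendsto (fun t : ℝ => s / (2 * t)) atTop (𝓝[≠] 0) := by
          refine tendsto_nhdsWithin_iff.2 ⟨hr, ?_⟩
          filter_upwards [eventually_gt_atTop 0] with t ht
          exact (div_pos hs (by linarith)).ne'
        have h3 := (h1.comp h2).const_mul (s / 2)
        rw [show s / 2 * (2 * Real.sin θ) = s * Real.sin θ by ring] at h3
        refine h3.congr' ?_
        filter_upwards [eventually_gt_atTop 0] with t ht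
        simp only [Function.comp_apply]
        have := hs.ne'
        field_simp
      have tl2 : Tendsto (fun t : ℝ => L (s / (2 * t))) atTop (𝓝 0) := by
        have := dL.continuousAt.tendsto.comp hr
        rw [L0] at this
        exact this
      have e : ∀ t : ℝ, ef t (cay (X (s / (2 * t)) θ)) =
          Real.exp (L (s / (2 * t)) / 2) * Real.cos (t * L (s / (2 * t))) := by
        intro t
        unfold ef
        rw [im_formula, hL]
      simp only [e]
      have h1 := (Real.continuous_exp.tendsto _).comp (tl2.div_const 2)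
      have h2 := (Real.continuous_cos.tendsto _).comp tl
      have h3 := h1.mul h2
      rw [zero_div, Real.exp_zero, one_mul] at h3
      exact h3
  have l2 := lim.const_mul ((2 * Real.pi)⁻¹)
  rw [Pool.Agent.X127.PB.B_int] at l2
  have e3 : (2 * Real.pi)⁻¹ * (2 * Real.pi * B 0 (s ^ 2 / 4)) = B 0 (s ^ 2 / 4) := by
    field_simp
  rw [e3] at l2
  exact l2

lemma ph_cont (t : ℝ) : ContinuousOn (ph t) (Set.Icc 0 (1 / 2)) := by
  obtain ⟨v, sv, hv⟩ := ext D_open (u := fun w => ef t (cay w))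
    ((ef_smooth t).comp cay_smooth fun w hw => cay_im_pos hw) (ρ := 1 / 2) (by norm_num)
    (fun w hw => by
      rw [mem_closedBall, dist_zero_right] at hw
      show ‖w‖ < 1
      linarith)
  have h1 : ContinuousOn (fun r => (2 * Real.pi)⁻¹ * I0 v r) (Set.Icc 0 (1 / 2)) :=
    (continuous_const.mul (continuous_iff_continuousAt.2 fun r =>
      (dI0 sv r).continuousAt)).continuousOn
  refine h1.congr fun r hr => ?_
  show ph t r = _
  unfold ph I0
  congr 1
  refine intervalIntegral.integral_congr fun θ _ => ?_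
  exact ((hv _ (by rw [norm_X, abs_of_nonneg hr.1]; exact hr.2)).self_of_nhds).symm

lemma ph_zero (t : ℝ) : ph t 0 = 1 := by
  have hx0 : ∀ θ, X 0 θ = 0 := fun θ => by rw [← norm_eq_zero, norm_X, abs_zero]
  have pp := Real.pi_pos.ne'
  unfold ph I0
  simp only [hx0, cay_zero]
  simp [ef]
  field_simp
  ring

lemma B_383 : B 0 ((383 / 100 : ℝ) ^ 2 / 4) ≤ -(2 / 5) := by
  have pp := Real.pi_pos
  have h1 := Pool.Agent.X127.PB.B_int (383 / 100)
  have h2 : ∫ θ in (-Real.pi)..Real.pi, Real.cos (383 / 100 * Real.sin θ) =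
      2 * ∫ θ in (0 : ℝ)..Real.pi, Real.cos (383 / 100 * Real.sin θ) := by
    have hc : Continuous fun θ : ℝ => Real.cos (383 / 100 * Real.sin θ) := by fun_prop
    rw [← intervalIntegral.integral_add_adjacent_intervals (b := 0)
      (hc.intervalIntegrable _ _) (hc.intervalIntegrable _ _)]
    have e : ∫ θ in (-Real.pi)..0, Real.cos (383 / 100 * Real.sin θ) =
        ∫ θ in (0 : ℝ)..Real.pi, Real.cos (383 / 100 * Real.sin θ) := by
      have := intervalIntegral.integral_comp_neg
        (f := fun θ : ℝ => Real.cos (383 / 100 * Real.sin θ)) (a := 0) (b := Real.pi)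
      rw [neg_zero] at this
      rw [← this]
      refine intervalIntegral.integral_congr fun θ _ => ?_
      show Real.cos (383 / 100 * Real.sin (-θ)) = _
      rw [Real.sin_neg, mul_neg, Real.cos_neg]
    rw [e]; ring
  rw [h2] at h1
  have h3 := Pool.Agent.X127.SW.bessel
  have h4 : 2 * Real.pi * B 0 ((383 / 100 : ℝ) ^ 2 / 4) ≤ 2 * (-(2 / 5) * Real.pi) := by
    rw [← h1]; linarith
  by_contra hc
  push Not at hc
  nlinarith

/-- **a radius at which the spherical function equals `-c`** -/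
theorem exists_r {c : ℝ} (c0 : 0 ≤ c) (c1 : c < 2 / 5) : ∃ t0 : ℝ, 0 < t0 ∧ ∀ t ≥ t0,
    ∃ r : ℝ, 0 < r ∧ r < 1 / 2 ∧ 2 * r / (1 - r) ≤ 4 / t ∧ ph t r = -c := by
  have h := ker_lim (s := 383 / 100) (by norm_num)
  have h1 : ∀ᶠ t : ℝ in atTop, ph t (383 / 100 / (2 * t)) < -c :=
    h.eventually_lt_const (by linarith [B_383])
  obtain ⟨t1, ht1⟩ := eventually_atTop.1 h1
  refine ⟨max t1 100, by positivity, fun t ht => ?_⟩
  have ht1' : t1 ≤ t := (le_max_left _ _).trans ht
  have ht2 : 100 ≤ t := (le_max_right _ _).trans ht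
  have h2 := ht1 t ht1'
  have tp : 0 < t := by linarith
  have r1 : 383 / 100 / (2 * t) ≤ 1 / 2 := by
    rw [div_le_iff₀ (by positivity)]
    linarith
  have rp : 0 < 383 / 100 / (2 * t) := by positivity
  have cont := (ph_cont t).mono (Set.Icc_subset_Icc_right r1)
  obtain ⟨r, hr, he⟩ := intermediate_value_Icc' rp.le cont
    (show -c ∈ Set.Icc (ph t (383 / 100 / (2 * t))) (ph t 0) from
      ⟨h2.le, by rw [ph_zero]; linarith⟩)
  have r0 : 0 < r := by
    rcases hr.1.eq_or_lt with h | h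
    · rw [← h, ph_zero] at he
      linarith
    · exact h
  have r2 : r ≤ 2 / t := by
    refine hr.2.trans ?_
    rw [div_le_div_iff₀ (by positivity) tp]
    nlinarith
  have r3 : r ≤ 383 / 100 / (2 * t) := hr.2
  have r5 : 2 / t ≤ 2 / 100 := by gcongr
  refine ⟨r, r0, by linarith, ?_, he⟩
  rw [div_le_div_iff₀ (by linarith) tp]
  have r4 : r * (2 * t) ≤ 383 / 100 := by
    rwa [le_div_iff₀ (by positivity)] at r3
  nlinarith

end

end Pool.Agent.X127.HY
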