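import Pool.Agent.X127.HY.Ex
import Pool.Agent.X127.PB.Ab

/-! # Weak limits on the hyperbolic plane -/

set_option autoImplicit false
open MeasureTheory Filter Topology Metric
open scoped ContDiff ENNReal

namespace Pool.Agent.X127.HY

open Pool.Agent.X127.PB (lp Ab ab_lim)
open Pool.Agent.X127.SW (conv_cont)

noncomputable section

lemma shrinkH {Ω : Set ℂ} (hΩ : IsOpen Ω) (hH : Ω ⊆ HH) (hfin : hm Ω ≠ ⊤) {t : ℕ → ℝ}
    (t0 : ∀ n, 0 < t n) (ht : Tendsto t atTop atTop) :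
    Tendsto (fun n => hm (Ω \ inn Ω (t n))) atTop (𝓝 0) := by
  have ms : ∀ n, MeasurableSet (inn Ω (t n))ᶜ := fun n =>
    (inn_open hΩ (t0 n)).measurableSet.compl
  have e : ∀ n, hm (Ω \ inn Ω (t n)) =
      ∫⁻ z in Ω, ((inn Ω (t n))ᶜ).indicator (fun _ => (1 : ℝ≥0∞)) z ∂hm := by
    intro n
    rw [lintegral_indicator (ms n), lintegral_const, one_mul, Measure.restrict_apply_univ,
      Measure.restrict_apply (ms n), Set.diff_eq, Set.inter_comm]
  simp only [e]
  have h := tendsto_lintegral_of_dominated_convergence (μ := hm.restrict Ω)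
    (F := fun n z => ((inn Ω (t n))ᶜ).indicator (fun _ => (1 : ℝ≥0∞)) z)
    (f := fun _ => 0) (bound := fun _ => 1) (fun n => measurable_const.indicator (ms n))
    (fun n => ae_of_all _ fun z =>
      Set.indicator_apply_le' (fun _ => le_rfl) (fun _ => bot_le)) (by
      rw [lintegral_const, one_mul, Measure.restrict_apply_univ]; exact hfin) ?_
  · simpa using h
  · filter_upwards [ae_restrict_mem hΩ.measurableSet] with z hz
    obtain ⟨ε, ε0, hε⟩ := Metric.isOpen_iff.1 hΩ z hz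
    refine tendsto_const_nhds.congr' ?_
    have h1 : Tendsto (fun n => 4 * z.im / t n) atTop (𝓝 0) :=
      tendsto_const_nhds.div_atTop ht
    filter_upwards [h1.eventually_lt_const ε0] with n hn
    rw [Set.indicator_of_notMem]
    intro h
    exact h ⟨hH hz, (closedBall_subset_ball hn).trans hε⟩

/-- **weak limits are quasi-symmetric** -/
theorem limH {Ω : Set ℂ} {t : ℕ → ℝ} {f : ℕ → ℂ → ℝ} {M : ℝ} (hΩ : IsOpen Ω) (hne : Ω.Nonempty)
    (hH : Ω ⊆ HH) (hfin : hm Ω ≠ ⊤) (M0 : 0 ≤ M) (ht : Tendsto t atTop atTop)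
    (sf : ∀ n, ContDiffOn ℝ ∞ (f n) Ω)
    (he : ∀ n, ∀ z ∈ Ω, -(z.im ^ 2 * lp (f n) z) = (1 / 4 + t n ^ 2) * f n z)
    (hev : ∀ᶠ n in atTop, Integrable (fun z => f n z ^ 2) (hm.restrict Ω) ∧
      ∫ z in Ω, f n z ^ 2 ∂hm ≤ M * (hm Ω).toReal) {ν : Measure ℝ} [IsProbabilityMeasure ν]
    (hw : ∀ g : ℝ → ℝ, Continuous g → (∃ M, ∀ x, |g x| ≤ M) →
      Tendsto (fun n => (∫ z in Ω, g (f n z) ∂hm) / (hm Ω).toReal) atTop (𝓝 (∫ x, g x ∂ν)))
    {Φ : ℝ → ℝ} (cΦ : ConvexOn ℝ Set.univ Φ) (Φ0 : ∀ x, 0 ≤ Φ x) :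
    ∫⁻ x, ENNReal.ofReal (Φ (2 / 5 * x)) ∂ν ≤ ∫⁻ x, ENNReal.ofReal (Φ (-x)) ∂ν := by
  have cc := conv_cont cΦ
  obtain ⟨m, hm'⟩ : ∃ m : Measure ℂ, m = hm.restrict Ω := ⟨_, rfl⟩
  have mu : m Set.univ = hm Ω := by rw [hm', Measure.restrict_apply_univ]
  have fm : IsFiniteMeasure m := ⟨by rw [mu]; exact lt_top_iff_ne_top.2 hfin⟩
  have hpos : 0 < hm Ω := by
    rw [pos_iff_ne_zero]
    intro h0
    unfold hm at h0
    rw [withDensity_apply _ hΩ.measurableSet, lintegral_eq_zero_iff kd_meas] at h0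
    have h1 : volume Ω = 0 := by
      rw [← Measure.restrict_apply_univ]
      refine measure_mono_null (t := {z | z ∈ Ω ∧ kd z = 0} ∪ Ωᶜ ∪ {z | kd z ≠ 0}) ?_ ?_
      · intro z _
        by_cases h : kd z = 0
        · by_cases hz : z ∈ Ω
          · exact Or.inl (Or.inl ⟨hz, h⟩)
          · exact Or.inl (Or.inr hz)
        · exact Or.inr h
      · have e1 : {z | z ∈ Ω ∧ kd z = 0} = ∅ := by
          ext z
          simp only [Set.mem_setOf_eq, Set.mem_empty_iff_false, iff_false, not_and]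
          intro hz
          unfold kd
          rw [ENNReal.ofReal_eq_zero]
          push Not
          have : 0 < z.im := hH hz
          positivity
        rw [e1, Set.empty_union]
        refine measure_union_null ?_ ?_
        · rw [Measure.restrict_apply hΩ.measurableSet.compl, Set.compl_inter_self, measure_empty]
        · exact h0
    exact (hΩ.measure_pos volume hne).ne' h1
  have V0 : 0 < (hm Ω).toReal := ENNReal.toReal_pos hpos.ne' hfin
  obtain ⟨τ, hτ⟩ : ∃ τ : ℕ → ℝ, τ = fun n => max (t n) 1 := ⟨_, rfl⟩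
  have τ0 : ∀ n, 0 < τ n := fun n => by rw [hτ]; exact lt_max_of_lt_right one_pos
  have τt : Tendsto τ atTop atTop := by
    rw [hτ]; exact tendsto_atTop_mono (fun n => le_max_left _ _) ht
  have mK : ∀ n, MeasurableSet (inn Ω (τ n)) := fun n => (inn_open hΩ (τ0 n)).measurableSet
  have KΩ : ∀ n, inn Ω (τ n) ⊆ Ω := fun n z hz =>
    hz.2 (mem_closedBall_self (by
      have := hz.1
      have := τ0 n
      positivity))
  have mf : ∀ n, AEStronglyMeasurable (f n) m := fun n => by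
    rw [hm']
    exact (sf n).continuousOn.aestronglyMeasurable hΩ.measurableSet
  have H : Ab m f (fun n z => -f n z) (fun n => inn Ω (τ n)) M := by
    refine ⟨by rw [mu]; exact V0, mf, fun n => (mf n).neg, ?_, ?_, mK, ?_⟩
    · filter_upwards [hev] with n hn
      simp only [neg_sq]
      rw [hm']
      exact hn.1
    · filter_upwards [hev] with n hn
      simp only [neg_sq]
      rw [mu, hm']
      exact hn.2
    · refine (shrinkH hΩ hH hfin τ0 τt).congr fun n => ?_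
      rw [hm', Measure.restrict_apply (mK n).compl, Set.inter_comm, ← Set.diff_eq]
  have pν : IsProbabilityMeasure (ν.map fun x => -x) :=
    Measure.isProbabilityMeasure_map measurable_neg.aemeasurable
  have w1 : ∀ g : ℝ → ℝ, Continuous g → (∃ M, ∀ x, |g x| ≤ M) →
      Tendsto (fun n => (∫ z, g (f n z) ∂m) / (m Set.univ).toReal) atTop (𝓝 (∫ x, g x ∂ν)) := by
    intro g cg hg
    rw [mu, hm']
    exact hw g cg hg
  have w2 : ∀ g : ℝ → ℝ, Continuous g → (∃ M, ∀ x, |g x| ≤ M) →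
      Tendsto (fun n => (∫ z, g (-f n z) ∂m) / (m Set.univ).toReal) atTop
        (𝓝 (∫ x, g x ∂(ν.map fun x => -x))) := by
    intro g cg ⟨B, hB⟩
    rw [integral_map measurable_neg.aemeasurable cg.aestronglyMeasurable, mu, hm']
    exact hw (fun x => g (-x)) (cg.comp continuous_neg) ⟨B, fun x => hB _⟩
  have main : ∀ c : ℝ, 0 ≤ c → c < 2 / 5 → ∫⁻ x, ENNReal.ofReal (Φ (c * x)) ∂ν ≤
      ∫⁻ x, ENNReal.ofReal (Φ (-x)) ∂ν := by
    intro c c0 c1
    obtain ⟨t0, ht0, hex⟩ := exactH c0 c1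
    have h := ab_lim (c := c) H M0 w1 w2 (fun Ψ cΨ Ψ0 => by
      filter_upwards [ht.eventually_ge_atTop t0, ht.eventually_ge_atTop 1] with n h1 h2
      have e : τ n = t n := by rw [hτ]; exact max_eq_left h2
      have KΩ' := KΩ n
      have mK' := mK n
      rw [e] at KΩ' mK' ⊢
      rw [hm', Measure.restrict_restrict mK', Set.inter_eq_left.2 KΩ']
      exact hex (t n) h1 Ω (f n) hΩ hH (sf n) (he n) Ψ cΨ Ψ0) cΦ Φ0
    rw [lintegral_map cc.measurable.ennreal_ofReal measurable_neg] at h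
    exact h
  obtain ⟨c, hc⟩ : ∃ c : ℕ → ℝ, c = fun n : ℕ => 2 / 5 - 2 / 5 / ((n : ℝ) + 1) := ⟨_, rfl⟩
  have cl : Tendsto c atTop (𝓝 (2 / 5)) := by
    have h1 : Tendsto (fun n : ℕ => (2 / 5 : ℝ) / ((n : ℝ) + 1)) atTop (𝓝 0) :=
      tendsto_const_nhds.div_atTop (tendsto_atTop_add_const_right _ _ tendsto_natCast_atTop_atTop)
    have := h1.const_sub (2 / 5)
    rw [sub_zero] at this
    rw [hc]
    exact this
  have c0 : ∀ n, 0 ≤ c n := fun n => by
    rw [hc]
    have h1 : (1 : ℝ) ≤ (n : ℝ) + 1 := by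
      have : (0 : ℝ) ≤ n := n.cast_nonneg
      linarith
    have : (2 / 5 : ℝ) / ((n : ℝ) + 1) ≤ 2 / 5 := div_le_self (by norm_num) h1
    simp only
    linarith
  have c1 : ∀ n, c n < 2 / 5 := fun n => by
    rw [hc]
    have : (0 : ℝ) < 2 / 5 / ((n : ℝ) + 1) := by positivity
    simp only
    linarith
  have lim : ∀ x, liminf (fun n => ENNReal.ofReal (Φ (c n * x))) atTop =
      ENNReal.ofReal (Φ (2 / 5 * x)) := fun x =>
    (ENNReal.tendsto_ofReal ((cc.tendsto _).comp (cl.mul_const x))).liminf_eq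
  calc ∫⁻ x, ENNReal.ofReal (Φ (2 / 5 * x)) ∂ν =
      ∫⁻ x, liminf (fun n => ENNReal.ofReal (Φ (c n * x))) atTop ∂ν := by simp only [lim]
    _ ≤ liminf (fun n => ∫⁻ x, ENNReal.ofReal (Φ (c n * x)) ∂ν) atTop :=
        lintegral_liminf_le fun n =>
          (cc.measurable.comp (measurable_const.mul measurable_id)).ennreal_ofReal
    _ ≤ liminf (fun _ : ℕ => ∫⁻ x, ENNReal.ofReal (Φ (-x)) ∂ν) atTop :=
        liminf_le_liminf (Eventually.of_forall fun n => main _ (c0 n) (c1 n))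
    _ = ∫⁻ x, ENNReal.ofReal (Φ (-x)) ∂ν := liminf_const _

end

end Pool.Agent.X127.HY
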