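import Pool.Agent.X127.PB.Gr2

/-! # Circle means of solutions of `Δv + q(|x|) v = 0` -/

set_option autoImplicit false
open MeasureTheory Filter Topology Metric
open scoped ContDiff ENNReal

namespace Pool.Agent.X127.HY

open Pool.Agent.TH298.Sch (X er et norm_X X_cont dd X_dr X_dt)
open Pool.Agent.TH298.AN.ODEM (tr_er et_deriv er_cont et_cont)
open Pool.Agent.TH298.Sch.Coer2 (param_deriv)
open Pool.Agent.X127.PB (lp)

noncomputable section

variable {v : ℂ → ℝ}

/-- circle mean of the radial derivative -/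
def I1 (v : ℂ → ℝ) (r : ℝ) : ℝ := ∫ θ in (-Real.pi)..Real.pi, fderiv ℝ v (X r θ) (er θ)

/-- circle mean of the second radial derivative -/
def I2 (v : ℂ → ℝ) (r : ℝ) : ℝ :=
  ∫ θ in (-Real.pi)..Real.pi, fderiv ℝ (fderiv ℝ v) (X r θ) (er θ) (er θ)

/-- circle mean -/
def I0 (v : ℂ → ℝ) (r : ℝ) : ℝ := ∫ θ in (-Real.pi)..Real.pi, v (X r θ)

lemma lp_eq (hv : ContDiff ℝ ∞ v) (x : ℂ) : lp v x = fderiv ℝ (fderiv ℝ v) x 1 1 +
    fderiv ℝ (fderiv ℝ v) x Complex.I Complex.I := by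
  have hd1 : ContDiff ℝ ∞ (fderiv ℝ v) := hv.fderiv_right (by simp)
  have hv2 : ∀ x, HasFDerivAt (fderiv ℝ v) (fderiv ℝ (fderiv ℝ v) x) x := fun x =>
    (hd1.differentiable (by simp) x).hasFDerivAt
  have h2 : ∀ h : ℂ, fderiv ℝ (fun w => fderiv ℝ v w h) x h =
      fderiv ℝ (fderiv ℝ v) x h h := by
    intro h
    have h3 : HasFDerivAt (fun w => fderiv ℝ v w h)
        ((ContinuousLinearMap.apply ℝ ℝ h).comp (fderiv ℝ (fderiv ℝ v) x)) x :=
      (ContinuousLinearMap.apply ℝ ℝ h).hasFDerivAt.comp _ (hv2 x)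
    rw [h3.fderiv]
    rfl
  unfold Pool.Agent.X127.PB.lp
  rw [h2, h2]

lemma dI0 (hv : ContDiff ℝ ∞ v) (r : ℝ) : HasDerivAt (I0 v) (I1 v r) r := by
  have := Pool.Agent.X127.PB.pd hv (w := fun _ => 1) continuous_const r
  simp only [mul_one] at this
  exact this

lemma dI1 (hv : ContDiff ℝ ∞ v) (r : ℝ) : HasDerivAt (I1 v) (I2 v r) r := by
  have hd1 : ContDiff ℝ ∞ (fderiv ℝ v) := hv.fderiv_right (by simp)
  have hd2 : ContDiff ℝ ∞ (fderiv ℝ (fderiv ℝ v)) := hd1.fderiv_right (by simp)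
  have hv2 : ∀ x, HasFDerivAt (fderiv ℝ v) (fderiv ℝ (fderiv ℝ v) x) x := fun x =>
    (hd1.differentiable (by simp) x).hasFDerivAt
  have drr : ∀ r θ : ℝ, HasDerivAt (fun r : ℝ => fderiv ℝ v (X r θ) (er θ))
      (fderiv ℝ (fderiv ℝ v) (X r θ) (er θ) (er θ)) r := by
    intro r θ
    have h1 := (hv2 (X r θ)).comp_hasDerivAt r (X_dr r θ)
    have h2 := h1.clm_apply (hasDerivAt_const r (er θ))
    refine h2.congr_deriv ?_
    simp
  have := param_deriv (V := fun r θ => fderiv ℝ v (X r θ) (er θ))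
      (D := fun r θ => fderiv ℝ (fderiv ℝ v) (X r θ) (er θ) (er θ))
      ((hd1.continuous.comp X_cont).clm_apply (er_cont.comp continuous_snd))
      (((hd2.continuous.comp X_cont).clm_apply (er_cont.comp continuous_snd)).clm_apply
      (er_cont.comp continuous_snd)) drr (φ := fun _ => 1) continuous_const r
  simp only [mul_one] at this
  exact this

/-- polar coordinates -/
lemma pol (hv : ContDiff ℝ ∞ v) (r : ℝ) :
    r ^ 2 * I2 v r + r * I1 v r = r ^ 2 * ∫ θ in (-Real.pi)..Real.pi, lp v (X r θ) := by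
  have hd1 : ContDiff ℝ ∞ (fderiv ℝ v) := hv.fderiv_right (by simp)
  have hd2 : ContDiff ℝ ∞ (fderiv ℝ (fderiv ℝ v)) := hd1.fderiv_right (by simp)
  have hv2 : ∀ x, HasFDerivAt (fderiv ℝ v) (fderiv ℝ (fderiv ℝ v) x) x := fun x =>
    (hd1.differentiable (by simp) x).hasFDerivAt
  have hx : Continuous fun θ => X r θ := X_cont.comp (continuous_const.prodMk continuous_id)
  have c1 : Continuous fun θ : ℝ => fderiv ℝ v (X r θ) (er θ) :=
    (hd1.continuous.comp hx).clm_apply er_cont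
  have c2 : Continuous fun θ : ℝ => fderiv ℝ v (X r θ) (et θ) :=
    (hd1.continuous.comp hx).clm_apply et_cont
  have c3 : Continuous fun θ : ℝ => fderiv ℝ (fderiv ℝ v) (X r θ) (er θ) (er θ) :=
    ((hd2.continuous.comp hx).clm_apply er_cont).clm_apply er_cont
  have c4 : Continuous fun θ : ℝ => fderiv ℝ (fderiv ℝ v) (X r θ) (et θ) (et θ) :=
    ((hd2.continuous.comp hx).clm_apply et_cont).clm_apply et_cont
  have sm : ∀ r θ : ℝ, (r : ℂ) * et θ = r • et θ := fun r θ => (Complex.real_smul).symm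
  have dtt : ∀ θ : ℝ, HasDerivAt (fun θ : ℝ => r * fderiv ℝ v (X r θ) (et θ))
      (r ^ 2 * fderiv ℝ (fderiv ℝ v) (X r θ) (et θ) (et θ) - r * fderiv ℝ v (X r θ) (er θ)) θ := by
    intro θ
    have h1 := (hv2 (X r θ)).comp_hasDerivAt θ (X_dt r θ)
    have h2 := (h1.clm_apply (et_deriv θ)).const_mul r
    refine h2.congr_deriv ?_
    rw [sm, map_smul]
    simp only [smul_apply, smul_eq_mul, map_neg, Function.comp_apply]
    ring
  have per : X r Real.pi = X r (-Real.pi) := by unfold X; simp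
  have peret : et Real.pi = et (-Real.pi) := by unfold et; simp
  have p := intervalIntegral.integral_eq_sub_of_hasDerivAt (a := -Real.pi) (b := Real.pi)
    (fun θ _ => dtt θ) (((c4.const_mul (r ^ 2)).sub (c1.const_mul r)).intervalIntegrable _ _)
  rw [per, peret, sub_self, intervalIntegral.integral_sub ((c4.const_mul _).intervalIntegrable _ _)
    ((c1.const_mul _).intervalIntegrable _ _), intervalIntegral.integral_const_mul,
    intervalIntegral.integral_const_mul] at p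
  have e : ∫ θ in (-Real.pi)..Real.pi, lp v (X r θ) = I2 v r +
      ∫ θ in (-Real.pi)..Real.pi, fderiv ℝ (fderiv ℝ v) (X r θ) (et θ) (et θ) := by
    unfold I2
    rw [← intervalIntegral.integral_add (c3.intervalIntegrable _ _) (c4.intervalIntegrable _ _)]
    refine intervalIntegral.integral_congr fun θ _ => ?_
    show lp v (X r θ) = _
    rw [lp_eq hv, ← tr_er _ θ]
  rw [e]
  unfold I1
  linear_combination -p

/-- uniqueness -/
theorem uniq (hv : ContDiff ℝ ∞ v) {a : ℝ} {q : ℝ → ℝ} {Q : ℝ}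
    (hq : ∀ r ∈ Set.Icc 0 a, |q r| ≤ Q)
    (he : ∀ x : ℂ, ‖x‖ ≤ a → lp v x = -(q ‖x‖ * v x)) (h0 : v 0 = 0) {r : ℝ}
    (hr : r ∈ Set.Icc 0 a) : I0 v r = 0 := by
  have hx0 : ∀ θ, X 0 θ = 0 := fun θ => by rw [← norm_eq_zero, norm_X, abs_zero]
  have i00 : I0 v 0 = 0 := by
    unfold I0
    simp only [hx0, h0]
    simp
  have i10 : I1 v 0 = 0 := by
    unfold I1
    simp only [hx0]
    have er_e : ∀ θ, er θ = (Real.cos θ) • (1 : ℂ) + (Real.sin θ) • Complex.I := by
      intro θ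
      unfold er
      simp [Complex.real_smul]
    have h1 : ∀ θ, fderiv ℝ v 0 (er θ) = Real.cos θ * fderiv ℝ v 0 1 +
        Real.sin θ * fderiv ℝ v 0 Complex.I := by
      intro θ
      rw [er_e, map_add, map_smul, map_smul]
      simp only [smul_eq_mul]
    simp only [h1]
    rw [intervalIntegral.integral_add
      ((by fun_prop : Continuous fun θ : ℝ => Real.cos θ * fderiv ℝ v 0 1).intervalIntegrable _ _)
      ((by fun_prop : Continuous fun θ : ℝ =>
        Real.sin θ * fderiv ℝ v 0 Complex.I).intervalIntegrable _ _),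
      intervalIntegral.integral_mul_const, intervalIntegral.integral_mul_const,
      integral_cos, integral_sin]
    simp
  obtain ⟨e, hedef⟩ : ∃ e : ℝ → ℝ, e = fun s => (I0 v s ^ 2 + I1 v s ^ 2) *
    Real.exp (-(1 + Q) * s) := ⟨_, rfl⟩
  have de : ∀ s, HasDerivAt e ((2 * I0 v s * I1 v s + 2 * I1 v s * I2 v s -
      (1 + Q) * (I0 v s ^ 2 + I1 v s ^ 2)) * Real.exp (-(1 + Q) * s)) s := by
    intro s
    rw [hedef]
    have h1 := (((dI0 hv s).pow 2).add ((dI1 hv s).pow 2)).mul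
      (((hasDerivAt_id s).const_mul (-(1 + Q))).exp)
    refine h1.congr_deriv ?_
    simp only [Pi.add_apply, Pi.pow_apply, id_eq]
    push_cast
    ring
  have Q0 : 0 ≤ Q := (abs_nonneg _).trans (hq r hr)
  have key : ∀ s ∈ Set.Icc 0 r, (2 * I0 v s * I1 v s + 2 * I1 v s * I2 v s -
      (1 + Q) * (I0 v s ^ 2 + I1 v s ^ 2)) * Real.exp (-(1 + Q) * s) ≤ 0 := by
    intro s hs
    refine mul_nonpos_of_nonpos_of_nonneg ?_ (Real.exp_pos _).le
    rcases hs.1.eq_or_lt with h | h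
    · rw [← h, i00, i10]
      simp
    · have p := pol hv s
      have sa : s ≤ a := hs.2.trans hr.2
      have e1 : ∫ θ in (-Real.pi)..Real.pi, lp v (X s θ) = -(q s * I0 v s) := by
        unfold I0
        rw [← intervalIntegral.integral_const_mul, ← intervalIntegral.integral_neg]
        refine intervalIntegral.integral_congr fun θ _ => ?_
        show lp v (X s θ) = _
        rw [he _ (by rw [norm_X, abs_of_pos h]; exact sa), norm_X, abs_of_pos h]
      rw [e1] at p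
      have p2 : I2 v s = -(q s * I0 v s) - I1 v s / s := by
        field_simp
        nlinarith
      rw [p2]
      have q1 := hq s ⟨h.le, sa⟩
      have h3 : 2 * I0 v s * I1 v s + 2 * I1 v s * (-(q s * I0 v s) - I1 v s / s) =
          2 * (1 - q s) * (I0 v s * I1 v s) - 2 * (I1 v s ^ 2 / s) := by
        field_simp
        ring
      rw [h3]
      have h4 : 0 ≤ I1 v s ^ 2 / s := by positivity
      have h5 : 2 * (1 - q s) * (I0 v s * I1 v s) ≤
          (1 + Q) * (I0 v s ^ 2 + I1 v s ^ 2) := by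
        have h6 : |1 - q s| ≤ 1 + Q := by
          have := abs_sub (1 : ℝ) (q s)
          rw [abs_one] at this
          linarith
        have h7 : 2 * |I0 v s * I1 v s| ≤ I0 v s ^ 2 + I1 v s ^ 2 := by
          rw [abs_mul, ← sq_abs (I0 v s), ← sq_abs (I1 v s)]
          nlinarith [sq_nonneg (|I0 v s| - |I1 v s|)]
        calc 2 * (1 - q s) * (I0 v s * I1 v s) ≤ |2 * (1 - q s) * (I0 v s * I1 v s)| :=
              le_abs_self _
          _ = |1 - q s| * (2 * |I0 v s * I1 v s|) := by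
              rw [abs_mul, abs_mul, abs_two]; ring
          _ ≤ (1 + Q) * (I0 v s ^ 2 + I1 v s ^ 2) :=
              mul_le_mul h6 h7 (by positivity) (by linarith)
      linarith
  have anti : AntitoneOn e (Set.Icc 0 r) :=
    antitoneOn_of_hasDerivWithinAt_nonpos (convex_Icc 0 r)
      (fun x _ => (de x).continuousAt.continuousWithinAt)
      (fun x _ => (de x).hasDerivWithinAt)
      (fun x hx => key x (interior_subset hx))
  have h1 := anti ⟨le_rfl, hr.1⟩ ⟨hr.1, le_rfl⟩ hr.1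
  have e0 : e 0 = 0 := by rw [hedef]; simp only [i00, i10]; simp
  rw [e0, hedef] at h1
  have h2 : I0 v r ^ 2 + I1 v r ^ 2 ≤ 0 := by
    by_contra hc
    push Not at hc
    have := mul_pos hc (Real.exp_pos (-(1 + Q) * r))
    linarith
  have h3 : I0 v r ^ 2 = 0 := le_antisymm (by nlinarith [sq_nonneg (I1 v r)]) (sq_nonneg _)
  exact pow_eq_zero_iff (two_ne_zero) |>.1 h3

/-- smooth extension -/
lemma ext {D : Set ℂ} (hD : IsOpen D) {u : ℂ → ℝ} (su : ContDiffOn ℝ ∞ u D) {ρ : ℝ} (hρ : 0 < ρ)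
    (hz : closedBall 0 ρ ⊆ D) : ∃ (v : ℂ → ℝ), ContDiff ℝ ∞ v ∧
      (∀ x : ℂ, ‖x‖ ≤ ρ → v =ᶠ[𝓝 x] u) := by
  obtain ⟨δ, hδ, hs⟩ := (isCompact_closedBall (0 : ℂ) ρ).exists_cthickening_subset_open hD hz
  rw [cthickening_closedBall hδ.le hρ.le] at hs
  let b : ContDiffBump (0 : ℂ) := ⟨ρ + δ / 2, ρ + δ, by linarith, by linarith⟩
  have b1 : ∀ x : ℂ, ‖x‖ ≤ ρ + δ / 2 → b x = 1 := fun x hx =>
    b.one_of_mem_closedBall (by simpa using hx)
  have b0 : ∀ x : ℂ, ρ + δ ≤ ‖x‖ → b x = 0 := fun x hx =>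
    b.zero_of_le_dist (by simpa using hx)
  obtain ⟨v, hv⟩ : ∃ v : ℂ → ℝ, v = fun x => b x * u x := ⟨_, rfl⟩
  have mem : ∀ x : ℂ, ‖x‖ ≤ ρ + δ → x ∈ D := fun x hx => hs (by
    rw [mem_closedBall, dist_zero_right]; linarith)
  have uat : ∀ w ∈ D, ContDiffAt ℝ ∞ u w := fun w hw => su.contDiffAt (hD.mem_nhds hw)
  have sv : ContDiff ℝ ∞ v := by
    rw [contDiff_iff_contDiffAt]
    intro x
    by_cases hx : ‖x‖ ≤ ρ + δ
    · rw [hv]
      exact (b.contDiff.contDiffAt).mul (uat _ (mem x hx))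
    · push Not at hx
      have : v =ᶠ[𝓝 x] fun _ => 0 := by
        have : {y : ℂ | ρ + δ < ‖y‖} ∈ 𝓝 x := (isOpen_lt continuous_const continuous_norm).mem_nhds hx
        filter_upwards [this] with y hy
        rw [hv]
        show b y * u y = 0
        rw [b0 y (le_of_lt hy), zero_mul]
      exact contDiffAt_const.congr_of_eventuallyEq this
  refine ⟨v, sv, fun x hx => ?_⟩
  have nb : {y : ℂ | ‖y‖ < ρ + δ / 2} ∈ 𝓝 x :=
    (isOpen_lt continuous_norm continuous_const).mem_nhds (by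
      show ‖x‖ < ρ + δ / 2
      linarith)
  filter_upwards [nb] with y hy
  rw [hv]
  show b y * u y = u y
  rw [b1 y (le_of_lt hy), one_mul]

lemma lp_congr {u w : ℂ → ℝ} {x : ℂ} (h : u =ᶠ[𝓝 x] w) : lp u x = lp w x := by
  unfold Pool.Agent.X127.PB.lp
  have e2 : ∀ k : ℂ, (fun y => fderiv ℝ u y k) =ᶠ[𝓝 x] fun y => fderiv ℝ w y k := by
    intro k
    filter_upwards [h.fderiv (𝕜 := ℝ)] with y hy
    rw [hy]
  rw [(e2 1).fderiv_eq, (e2 Complex.I).fderiv_eq]

/-- **two solutions have proportional circle means** -/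
theorem prop {D : Set ℂ} (hD : IsOpen D) {u w : ℂ → ℝ} (su : ContDiffOn ℝ ∞ u D)
    (sw : ContDiffOn ℝ ∞ w D) {ρ : ℝ} (hρ : 0 < ρ) (hz : closedBall 0 ρ ⊆ D) {q : ℝ → ℝ} {Q : ℝ}
    (hq : ∀ r ∈ Set.Icc 0 ρ, |q r| ≤ Q)
    (hu : ∀ x : ℂ, ‖x‖ ≤ ρ → lp u x = -(q ‖x‖ * u x))
    (hw : ∀ x : ℂ, ‖x‖ ≤ ρ → lp w x = -(q ‖x‖ * w x)) (w0 : w 0 = 1) {r : ℝ}
    (hr : r ∈ Set.Icc 0 ρ) : I0 u r = u 0 * I0 w r := by
  obtain ⟨u', su', eu⟩ := ext hD su hρ hz
  obtain ⟨w', sw', ew⟩ := ext hD sw hρ hz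
  obtain ⟨v, hv⟩ : ∃ v : ℂ → ℝ, v = fun x => u' x - u' 0 * w' x := ⟨_, rfl⟩
  have sv : ContDiff ℝ ∞ v := by rw [hv]; exact su'.sub (contDiff_const.mul sw')
  have n0 : ‖(0 : ℂ)‖ ≤ ρ := by rw [norm_zero]; exact hρ.le
  have u0 : u' 0 = u 0 := (eu 0 n0).self_of_nhds
  have w00 : w' 0 = 1 := by rw [← w0]; exact (ew 0 n0).self_of_nhds
  have lv : ∀ x : ℂ, ‖x‖ ≤ ρ → lp v x = -(q ‖x‖ * v x) := by
    intro x hx
    have d1 : ∀ y, fderiv ℝ v y = fderiv ℝ u' y - u' 0 • fderiv ℝ w' y := by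
      intro y
      rw [hv]
      have a1 := (su'.differentiable (by simp) y).hasFDerivAt
      have a2 := (sw'.differentiable (by simp) y).hasFDerivAt
      exact (a1.sub (a2.const_mul (u' 0))).fderiv
    have hd1 : ContDiff ℝ ∞ (fderiv ℝ u') := su'.fderiv_right (by simp)
    have hd2 : ContDiff ℝ ∞ (fderiv ℝ w') := sw'.fderiv_right (by simp)
    have e : lp v x = lp u' x - u' 0 * lp w' x := by
      rw [lp_eq sv, lp_eq su', lp_eq sw']
      have : fderiv ℝ v = fun y => fderiv ℝ u' y - u' 0 • fderiv ℝ w' y := funext d1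
      rw [this]
      have a1 := (hd1.differentiable (by simp) x).hasFDerivAt
      have a2 := (hd2.differentiable (by simp) x).hasFDerivAt
      rw [(a1.fun_sub (a2.fun_const_smul (u' 0))).fderiv]
      simp only [sub_apply, smul_apply, smul_eq_mul]
      ring
    rw [e, lp_congr (eu x hx), lp_congr (ew x hx), hu x hx, hw x hx, hv]
    simp only
    rw [(eu x hx).self_of_nhds, (ew x hx).self_of_nhds]
    ring
  have v0 : v 0 = 0 := by rw [hv]; simp only [w00]; ring
  have h := uniq sv hq lv v0 hr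
  have e1 : I0 v r = I0 u r - u 0 * I0 w r := by
    have hx : Continuous fun θ => X r θ := X_cont.comp (continuous_const.prodMk continuous_id)
    have nx : ∀ θ, ‖X r θ‖ ≤ ρ := fun θ => by rw [norm_X, abs_of_nonneg hr.1]; exact hr.2
    have a1 : I0 u r = I0 u' r := by
      unfold I0
      exact intervalIntegral.integral_congr fun θ _ => ((eu _ (nx θ)).self_of_nhds).symm
    have a2 : I0 w r = I0 w' r := by
      unfold I0
      exact intervalIntegral.integral_congr fun θ _ => ((ew _ (nx θ)).self_of_nhds).symm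
    rw [a1, a2, ← u0]
    unfold I0
    have c1 : Continuous fun θ => u' (X r θ) := su'.continuous.comp hx
    have c2 : Continuous fun θ => u' 0 * w' (X r θ) :=
      continuous_const.mul (sw'.continuous.comp hx)
    rw [← intervalIntegral.integral_const_mul, ← intervalIntegral.integral_sub
      (c1.intervalIntegrable _ _) (c2.intervalIntegrable _ _), hv]
  rw [e1] at h
  linarith

end

end Pool.Agent.X127.HY
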