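import Pool.Agent.X127.HY.Cnd

/-! # The conditional inequality along sequences -/

set_option autoImplicit false
open MeasureTheory Filter Topology Metric
open scoped ContDiff ENNReal

namespace Pool.Agent.X127.HY

open Pool.Agent.X127.PB (lp)
open Pool.Agent.X127.SW (conv_cont)

noncomputable section

/-- weighted integral with respect to the hyperbolic area -/
def IJ (w F : ℂ → ℝ) : ℝ := ∫ z, w z * F z / z.im ^ 2

lemma set_hm {K : Set ℂ} (mK : MeasurableSet K) (q : ℂ → ℝ) :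
    ∫ z in K, q z ∂hm = ∫ z in K, q z / z.im ^ 2 := by
  unfold hm
  rw [setIntegral_withDensity_eq_setIntegral_toReal_smul kd_meas
    (ae_of_all _ fun z => ENNReal.ofReal_lt_top) _ mK]
  refine integral_congr_ae (ae_of_all _ fun z => ?_)
  show (kd z).toReal • q z = q z / z.im ^ 2
  unfold kd
  rw [ENNReal.toReal_ofReal (by positivity), smul_eq_mul, one_div, inv_mul_eq_div]

lemma IJ_eq {ψ : ℂ → ℝ} {Q : Set ℂ} (mQ : MeasurableSet Q) (sψ : ∀ z, z ∉ Q → ψ z = 0)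
    (F : ℂ → ℝ) : ∫ z in Q, ψ z * F z ∂hm = IJ ψ F := by
  rw [set_hm mQ]
  unfold IJ
  exact setIntegral_eq_integral_of_forall_compl_eq_zero fun z hz => by
    rw [sψ z hz, zero_mul, zero_div]

lemma pt_dist {t r : ℝ} (r1 : r < 1) (hr : 2 * r / (1 - r) ≤ 4 / t) {z : ℂ} (h0 : 0 < z.im)
    {w : ℂ} (hw : ‖w‖ ≤ r) : dist (pt z w) z ≤ z.im * (4 / t) := by
  rw [dist_eq_norm]
  have e : pt z w - z = z.im * (cay w - Complex.I) := by
    unfold pt
    linear_combination Complex.re_add_im z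
  rw [e, norm_mul, Complex.norm_real, Real.norm_eq_abs, abs_of_pos h0]
  gcongr
  exact (cay_dist hw r1).trans hr

/-- local boundedness in `L²`, passed to the hyperbolic area -/
lemma loc_hm {K Ω : Set ℂ} (hK : IsCompact K) (KΩ : K ⊆ Ω) (hH : Ω ⊆ HH) {u : ℕ → ℂ → ℝ}
    (cu : ∀ n, ContinuousOn (u n) Ω) {C : ℝ} (hC : ∀ᶠ n in atTop, ∫ z in K, u n z ^ 2 ≤ C) :
    ∃ C' : ℝ, 0 ≤ C' ∧ ∀ᶠ n in atTop, ∫ z in K, u n z ^ 2 ∂hm ≤ C' := by
  have ck : ContinuousOn (fun z : ℂ => 1 / z.im ^ 2) K :=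
    continuousOn_const.div (Complex.continuous_im.continuousOn.pow 2) fun z hz => by
      have : 0 < z.im := hH (KΩ hz)
      positivity
  obtain ⟨m, hm'⟩ := hK.exists_bound_of_continuousOn ck
  have hm2 : ∀ z ∈ K, 1 / z.im ^ 2 ≤ max m 0 := fun z hz =>
    ((le_abs_self _).trans (hm' z hz)).trans (le_max_left _ _)
  refine ⟨max m 0 * max C 0, by positivity, ?_⟩
  filter_upwards [hC] with n hn
  rw [set_hm hK.measurableSet]
  have c2 : ContinuousOn (fun z => u n z ^ 2) K := ((cu n).mono KΩ).pow 2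
  calc ∫ z in K, u n z ^ 2 / z.im ^ 2 ≤ ∫ z in K, max m 0 * u n z ^ 2 := by
        refine setIntegral_mono_on ?_ ?_ hK.measurableSet fun z hz => ?_
        · have : ContinuousOn (fun z => u n z ^ 2 / z.im ^ 2) K := by
            have := c2.mul ck
            refine this.congr fun z _ => ?_
            simp only [Pi.mul_apply]
            ring
          exact this.integrableOn_compact hK
        · exact (continuousOn_const.mul c2).integrableOn_compact hK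
        · have := mul_le_mul_of_nonneg_right (hm2 z hz) (sq_nonneg (u n z))
          calc u n z ^ 2 / z.im ^ 2 = 1 / z.im ^ 2 * u n z ^ 2 := by ring
            _ ≤ _ := this
    _ = max m 0 * ∫ z in K, u n z ^ 2 := integral_const_mul _ _
    _ ≤ max m 0 * max C 0 := by
        gcongr
        exact hn.trans (le_max_left _ _)

/-- the hypotheses on the forms -/
structure Fo (Ω : Set ℂ) {k : ℕ} (t : ℕ → ℝ) (f : ℕ → ℂ → ℝ) (s : Fin k → ℕ → ℝ)
    (g : Fin k → ℕ → ℂ → ℝ) : Prop where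
  op : IsOpen Ω
  sub : Ω ⊆ HH
  high : Tendsto t atTop atTop
  sep : ∀ i, Tendsto (fun n => s i n / t n) atTop (𝓝 0)
  ef : ∀ n, Sol Ω (t n) (f n)
  eg : ∀ i n, Sol Ω (s i n) (g i n)
  lf : ∀ K : Set ℂ, IsCompact K → K ⊆ Ω → ∃ C : ℝ, ∀ᶠ n in atTop, ∫ z in K, f n z ^ 2 ≤ C
  lg : ∀ i, ∀ K : Set ℂ, IsCompact K → K ⊆ Ω → ∃ C : ℝ, ∀ᶠ n in atTop,
    ∫ z in K, g i n z ^ 2 ≤ C

theorem con2 {Ω : Set ℂ} {k : ℕ} {t : ℕ → ℝ} {f : ℕ → ℂ → ℝ} {s : Fin k → ℕ → ℝ}
    {g : Fin k → ℕ → ℂ → ℝ} (HF : Fo Ω t f s g) {ψ : ℂ → ℝ} (cψ : Continuous ψ)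
    (kψ : HasCompactSupport ψ) (tψ : tsupport ψ ⊆ Ω) (ψ0 : ∀ z, 0 ≤ ψ z)
    {h : (Fin k → ℝ) → ℝ} {H L : ℝ}
    (ch : Continuous h) (h0 : ∀ y, 0 ≤ h y) (hH' : ∀ y, h y ≤ H) (L0 : 0 ≤ L)
    (hL : ∀ y y', (h y - h y') ^ 2 ≤ L * ∑ i, (y i - y' i) ^ 2)
    {Φ : ℝ → ℝ} (cΦ : ConvexOn ℝ Set.univ Φ) (Φ0 : ∀ x, 0 ≤ Φ x) {A B : ℝ} (A0 : 0 ≤ A)
    (B0 : 0 ≤ B) (hAB : ∀ x, Φ x ≤ A + B * |x|) {c : ℝ} (c0 : 0 ≤ c) (c1 : c < 2 / 5)
    {e : ℝ} (e0 : 0 < e) :
    ∀ᶠ n in atTop, IJ ψ (fun z => h (fun i => g i n z) * Φ (c * f n z)) ≤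
      IJ ψ (fun z => h (fun i => g i n z) * Φ (-f n z)) + e := by
  obtain ⟨hΩ, hH, ht, hs, ef, eg, lf, lg⟩ := HF
  have cc := conv_cont cΦ
  have H0 : 0 ≤ H := (h0 0).trans (hH' 0)
  obtain ⟨Q, hQd⟩ : ∃ Q, Q = tsupport ψ := ⟨_, rfl⟩
  have hQ : IsCompact Q := by rw [hQd]; exact kψ
  have sψ : ∀ z, z ∉ Q → ψ z = 0 := fun z hz => by
    rw [hQd] at hz; exact image_eq_zero_of_notMem_tsupport hz
  obtain ⟨δ, δ0, hδ⟩ := hQ.exists_cthickening_subset_open hΩ (by rw [hQd]; exact tψ)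
  obtain ⟨Q', hQ'd⟩ : ∃ Q', Q' = cthickening δ Q := ⟨_, rfl⟩
  have hQ' : IsCompact Q' := by rw [hQ'd]; exact hQ.cthickening
  have QQ : Q ⊆ Q' := by rw [hQ'd]; exact self_subset_cthickening Q
  have QΩ : Q' ⊆ Ω := by rw [hQ'd]; exact hδ
  have QH : Q' ⊆ HH := QΩ.trans hH
  have fm := finK hQ' QH
  have fmQ := finK hQ (QQ.trans QH)
  obtain ⟨Y, hY⟩ := hQ.exists_bound_of_continuousOn Complex.continuous_im.continuousOn
  have hY' : ∀ z ∈ Q, z.im ≤ max Y 0 := fun z hz =>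
    ((le_abs_self _).trans (hY z hz)).trans (le_max_left _ _)
  obtain ⟨M0, hM0⟩ : ∃ M0, ∀ z, ψ z ≤ M0 := by
    obtain ⟨M, hM⟩ := kψ.exists_bound_of_continuous cψ
    exact ⟨M, fun z => (le_abs_self _).trans (hM z)⟩
  have M00 : 0 ≤ M0 := (ψ0 0).trans (hM0 0)
  -- bounds
  obtain ⟨C1, hC1⟩ := lf Q' hQ' QΩ
  obtain ⟨Cf, Cf0, hCf⟩ := loc_hm hQ' QΩ hH (fun n => (ef n).sm.continuousOn) hC1
  have hg' : ∀ i, ∃ C : ℝ, 0 ≤ C ∧ ∀ᶠ n in atTop, ∫ z in Q', g i n z ^ 2 ∂hm ≤ C := fun i => by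
    obtain ⟨C2, hC2⟩ := lg i Q' hQ' QΩ
    exact loc_hm hQ' QΩ hH (fun n => (eg i n).sm.continuousOn) hC2
  choose Cg Cg0 hCg using hg'
  obtain ⟨V, hV⟩ : ∃ V, V = (hm Q').toReal := ⟨_, rfl⟩
  have V0 : 0 ≤ V := by rw [hV]; exact ENNReal.toReal_nonneg
  obtain ⟨D1, hD1⟩ : ∃ D1, D1 = (A + B) * V + B * Cf := ⟨_, rfl⟩
  have D10 : 0 ≤ D1 := by rw [hD1]; positivity
  obtain ⟨D2, hD2⟩ : ∃ D2, D2 = 2 * A ^ 2 * V + 2 * B ^ 2 * Cf := ⟨_, rfl⟩
  have D20 : 0 ≤ D2 := by rw [hD2]; positivity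
  obtain ⟨S, hS⟩ : ∃ S, S = ∑ i, Cg i := ⟨_, rfl⟩
  have S0 : 0 ≤ S := by rw [hS]; exact Finset.sum_nonneg fun i _ => Cg0 i
  -- parameters
  obtain ⟨η, hη⟩ : ∃ η, η = e / (4 * (M0 * D2 + 1)) := ⟨_, rfl⟩
  have η0 : 0 < η := by rw [hη]; positivity
  have η1 : η * M0 * D2 ≤ e / 4 := by
    rw [hη, div_mul_eq_mul_div, div_mul_eq_mul_div, div_le_div_iff₀ (by positivity) (by norm_num)]
    nlinarith [mul_nonneg M00 D20]
  obtain ⟨κ, hκ⟩ : ∃ κ, κ = L / (4 * η) := ⟨_, rfl⟩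
  have κ0 : 0 ≤ κ := by rw [hκ]; positivity
  obtain ⟨ε, hε⟩ : ∃ ε, ε = e / (4 * (H * D1 + κ * S + 1)) := ⟨_, rfl⟩
  have ε0 : 0 < ε := by rw [hε]; positivity
  have ε1 : ε * (H * D1 + κ * S) ≤ e / 4 := by
    rw [hε, div_mul_eq_mul_div, div_le_div_iff₀ (by positivity) (by norm_num)]
    have : 0 ≤ H * D1 + κ * S := by positivity
    nlinarith
  -- uniform continuity
  have uc := kψ.uniformContinuous_of_continuous cψ
  obtain ⟨δ', δ'0, hδ'⟩ := Metric.uniformContinuous_iff.1 uc ε ε0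
  -- smallness
  obtain ⟨b, hb⟩ : ∃ b : Fin k → ℕ → ℝ, b = fun i n => 64 * (s i n / t n) ^ 2 + 16 / t n :=
    ⟨_, rfl⟩
  have bl : ∀ i, Tendsto (b i) atTop (𝓝 0) := by
    intro i
    rw [hb]
    have h1 := ((hs i).pow 2).const_mul 64
    have h2 : Tendsto (fun n => 16 / t n) atTop (𝓝 0) := tendsto_const_nhds.div_atTop ht
    have h3 := h1.add h2
    simpa using h3
  have sl : Tendsto (fun n => κ * ∑ i, 2 * b i n * (M0 * Cg i)) atTop (𝓝 0) := by
    have h1 : Tendsto (fun n => ∑ i, 2 * b i n * (M0 * Cg i)) atTop (𝓝 (∑ i : Fin k, 2 * 0 *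
      (M0 * Cg i))) := tendsto_finsetSum _ fun i _ => ((bl i).const_mul 2).mul_const _
    have h2 := h1.const_mul κ
    simpa using h2
  have yl : Tendsto (fun n => max Y 0 * (4 / t n)) atTop (𝓝 0) := by
    have h2 : Tendsto (fun n => 4 / t n) atTop (𝓝 0) := tendsto_const_nhds.div_atTop ht
    have := h2.const_mul (max Y 0)
    rwa [mul_zero] at this
  obtain ⟨t0, ht0, hex⟩ := exists_r c0 c1
  have bl2 : ∀ᶠ n in atTop, ∀ i, b i n < 1 / 2 :=
    eventually_all.2 fun i => (bl i).eventually_lt_const (by norm_num)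
  have cg2 : ∀ᶠ n in atTop, ∀ i, ∫ z in Q', g i n z ^ 2 ∂hm ≤ Cg i := eventually_all.2 hCg
  filter_upwards [ht.eventually_ge_atTop t0, hCf, cg2, bl2,
    sl.eventually_lt_const (show (0 : ℝ) < e / 4 by positivity),
    yl.eventually_lt_const δ0, yl.eventually_lt_const δ'0] with n n1 n2 n3 n4 n5 n6 n7
  obtain ⟨r, r0, r1, r2, r3⟩ := hex (t n) n1
  have tp : 0 < t n := ht0.trans_le n1
  have r1' : r < 1 := by linarith
  have r4 : r ≤ 2 / t n := by
    have h1 : 2 * r ≤ 2 * r / (1 - r) := by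
      rw [le_div_iff₀ (by linarith)]
      nlinarith
    have h2 : 2 * r ≤ 4 / t n := h1.trans r2
    have h3 : 4 / t n = 2 * (2 / t n) := by ring
    linarith
  have hph : ∀ i, 1 - b i n ≤ ph (s i n) r := by
    intro i
    have h1 := ph_low (s i n) r0 r1.le
    have h2 : (s i n * r) ^ 2 ≤ 4 * (s i n / t n) ^ 2 := by
      have h3 : r ^ 2 ≤ (2 / t n) ^ 2 := pow_le_pow_left₀ r0.le r4 2
      calc (s i n * r) ^ 2 = s i n ^ 2 * r ^ 2 := by ring
        _ ≤ s i n ^ 2 * (2 / t n) ^ 2 := by gcongr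
        _ = 4 * (s i n / t n) ^ 2 := by ring
    rw [hb]
    simp only
    have h3 : 16 / t n = 8 * (2 / t n) := by ring
    have h4 : 0 ≤ 2 / t n := by positivity
    nlinarith [sq_nonneg (s i n / t n)]
  have key := con1 hΩ hH hQ hQ' QQ QΩ cψ ψ0 hM0 sψ (ef n) (fun i => eg i n) r0 r1.le r3
    (ε := ε) (fun z hz w hw => by
      have zi : 0 < z.im := hH (QΩ (QQ hz))
      have h1 := pt_dist r1' r2 zi hw
      have h2 : z.im * (4 / t n) ≤ max Y 0 * (4 / t n) := by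
        have := hY' z hz
        gcongr
      constructor
      · rw [hQ'd]
        exact mem_cthickening_of_dist_le _ z _ _ hz (by linarith)
      · have h3 := hδ' (a := pt z w) (b := z) (by linarith)
        rw [Real.dist_eq] at h3
        have := (abs_lt.1 h3).1
        linarith) ε0.le (fun i => by linarith [hph i, n4 i]) ch h0 hH' L0 hL η0 cΦ Φ0
  rw [← hκ] at key
  -- the terms
  have cfn : ContinuousOn (f n) Q' := (ef n).sm.continuousOn.mono QΩ
  have T1 : ∫ z in Q', Φ (-f n z) ∂hm ≤ D1 := by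
    have i1 : Integrable (fun z => Φ (-f n z)) (hm.restrict Q') :=
      intK hQ' QH (cc.comp_continuousOn cfn.neg)
    have i2 : Integrable (fun z => f n z ^ 2) (hm.restrict Q') := intK hQ' QH (cfn.pow 2)
    have i3 : Integrable (fun z => (A + B) + B * f n z ^ 2) (hm.restrict Q') :=
      (integrable_const _).add (i2.const_mul _)
    calc ∫ z in Q', Φ (-f n z) ∂hm ≤ ∫ z in Q', ((A + B) + B * f n z ^ 2) ∂hm := by
          refine integral_mono i1 i3 fun z => ?_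
          have h1 := hAB (-f n z)
          rw [abs_neg] at h1
          have h2 : |f n z| ≤ 1 + f n z ^ 2 := by
            rw [← sq_abs (f n z)]
            nlinarith [sq_nonneg (|f n z| - 1), abs_nonneg (f n z)]
          have h3 := mul_le_mul_of_nonneg_left h2 B0
          show Φ (-f n z) ≤ (A + B) + B * f n z ^ 2
          linarith
      _ = (A + B) * V + B * ∫ z in Q', f n z ^ 2 ∂hm := by
          rw [integral_add (integrable_const _) (i2.const_mul _), integral_const_mul,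
            integral_const, smul_eq_mul, hV, measureReal_def, Measure.restrict_apply_univ]
          ring
      _ ≤ D1 := by rw [hD1]; gcongr
  have T2 : ∫ z in Q', Φ (-f n z) ^ 2 ∂hm ≤ D2 := by
    have i1 : Integrable (fun z => Φ (-f n z) ^ 2) (hm.restrict Q') :=
      intK hQ' QH ((cc.comp_continuousOn cfn.neg).pow 2)
    have i2 : Integrable (fun z => f n z ^ 2) (hm.restrict Q') := intK hQ' QH (cfn.pow 2)
    have i3 : Integrable (fun z => 2 * A ^ 2 + 2 * B ^ 2 * f n z ^ 2) (hm.restrict Q') :=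
      (integrable_const _).add (i2.const_mul _)
    calc ∫ z in Q', Φ (-f n z) ^ 2 ∂hm ≤
        ∫ z in Q', (2 * A ^ 2 + 2 * B ^ 2 * f n z ^ 2) ∂hm := by
          refine integral_mono i1 i3 fun z => ?_
          have h1 := hAB (-f n z)
          rw [abs_neg] at h1
          have h2 := Φ0 (-f n z)
          show Φ (-f n z) ^ 2 ≤ 2 * A ^ 2 + 2 * B ^ 2 * f n z ^ 2
          have h3 : Φ (-f n z) ^ 2 ≤ (A + B * |f n z|) ^ 2 := pow_le_pow_left₀ h2 h1 2
          rw [← sq_abs (f n z)]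
          nlinarith [sq_nonneg (A - B * |f n z|)]
      _ = 2 * A ^ 2 * V + 2 * B ^ 2 * ∫ z in Q', f n z ^ 2 ∂hm := by
          rw [integral_add (integrable_const _) (i2.const_mul _),
            integral_const_mul (2 * B ^ 2) (fun z => f n z ^ 2),
            integral_const, smul_eq_mul, hV, measureReal_def, Measure.restrict_apply_univ]
          ring
      _ ≤ D2 := by rw [hD2]; gcongr
  have T3 : κ * ∑ i, ((2 - 2 * ph (s i n) r) * (∫ z in Q, ψ z * g i n z ^ 2 ∂hm) +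
      ε * ∫ z in Q', g i n z ^ 2 ∂hm) ≤
      (κ * ∑ i, 2 * b i n * (M0 * Cg i)) + ε * (κ * S) := by
    have h1 : ∀ i, (2 - 2 * ph (s i n) r) * (∫ z in Q, ψ z * g i n z ^ 2 ∂hm) +
        ε * (∫ z in Q', g i n z ^ 2 ∂hm) ≤ 2 * b i n * (M0 * Cg i) + ε * Cg i := by
      intro i
      have cgn : ContinuousOn (g i n) Q' := (eg i n).sm.continuousOn.mono QΩ
      have p1 : ∫ z in Q, ψ z * g i n z ^ 2 ∂hm ≤ M0 * Cg i := by
        have j1 : Integrable (fun z => ψ z * g i n z ^ 2) (hm.restrict Q) :=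
          intK hQ (QQ.trans QH) (cψ.continuousOn.mul ((cgn.mono QQ).pow 2))
        have j2 : Integrable (fun z => M0 * g i n z ^ 2) (hm.restrict Q) :=
          (intK hQ (QQ.trans QH) ((cgn.mono QQ).pow 2)).const_mul _
        calc ∫ z in Q, ψ z * g i n z ^ 2 ∂hm ≤ ∫ z in Q, M0 * g i n z ^ 2 ∂hm :=
              integral_mono j1 j2 fun z => mul_le_mul_of_nonneg_right (hM0 z) (sq_nonneg _)
          _ = M0 * ∫ z in Q, g i n z ^ 2 ∂hm := integral_const_mul _ _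
          _ ≤ M0 * ∫ z in Q', g i n z ^ 2 ∂hm := by
              refine mul_le_mul_of_nonneg_left (setIntegral_mono_set (intK hQ' QH (cgn.pow 2))
                (ae_of_all _ fun z => sq_nonneg _) QQ.eventuallyLE) M00
          _ ≤ M0 * Cg i := by
              have := n3 i
              gcongr
      have p0 : 0 ≤ ∫ z in Q, ψ z * g i n z ^ 2 ∂hm :=
        integral_nonneg fun z => mul_nonneg (ψ0 z) (sq_nonneg _)
      have p2 : 2 - 2 * ph (s i n) r ≤ 2 * b i n := by linarith [hph i]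
      have b0 : 0 ≤ b i n := by rw [hb]; positivity
      have p3 := n3 i
      calc (2 - 2 * ph (s i n) r) * (∫ z in Q, ψ z * g i n z ^ 2 ∂hm) +
          ε * (∫ z in Q', g i n z ^ 2 ∂hm) ≤
          2 * b i n * (∫ z in Q, ψ z * g i n z ^ 2 ∂hm) + ε * Cg i := by gcongr
        _ ≤ _ := by gcongr
    have h2 := mul_le_mul_of_nonneg_left (Finset.sum_le_sum fun i (_ : i ∈ Finset.univ) => h1 i) κ0
    refine h2.trans (le_of_eq ?_)
    rw [Finset.sum_add_distrib, ← Finset.mul_sum, ← hS]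
    ring
  have E1 : ∫ z in Q, ψ z * h (fun i => g i n z) * Φ (c * f n z) ∂hm =
      IJ ψ (fun z => h (fun i => g i n z) * Φ (c * f n z)) := by
    rw [← IJ_eq hQ.measurableSet sψ]
    simp only [mul_assoc]
  have E2 : ∫ z in Q, ψ z * h (fun i => g i n z) * Φ (-f n z) ∂hm =
      IJ ψ (fun z => h (fun i => g i n z) * Φ (-f n z)) := by
    rw [← IJ_eq hQ.measurableSet sψ]
    simp only [mul_assoc]
  rw [E1, E2] at key
  have k1 : ε * H * (∫ z in Q', Φ (-f n z) ∂hm) ≤ ε * H * D1 :=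
    mul_le_mul_of_nonneg_left T1 (by positivity)
  have k2 : η * M0 * (∫ z in Q', Φ (-f n z) ^ 2 ∂hm) ≤ η * M0 * D2 :=
    mul_le_mul_of_nonneg_left T2 (by positivity)
  have k3 : ε * H * D1 + ε * (κ * S) ≤ e / 4 := by
    refine le_trans (le_of_eq ?_) ε1
    ring
  linarith

end

end Pool.Agent.X127.HY
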