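import Pool.Agent.X127.HY.Ex

/-! # Slow eigenfunctions are locally constant in mean square -/

set_option autoImplicit false
open MeasureTheory Filter Topology Metric
open scoped ContDiff ENNReal

namespace Pool.Agent.X127.HY

open Pool.Agent.TH298.Sch (X er et norm_X X_cont)
open Pool.Agent.X127.PB (lp cu cu_int cu_cont jen)
open Pool.Agent.X127.SW (conv_cont)

noncomputable section

lemma X_D {r : ℝ} (r0 : 0 < r) (r1 : r < 1) (θ : ℝ) : X r θ ∈ D := by
  show ‖X r θ‖ < 1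
  rw [norm_X, abs_of_pos r0]; exact r1

lemma cX' (r : ℝ) : Continuous fun θ => X r θ := X_cont.comp (continuous_const.prodMk continuous_id)

lemma ccay {r : ℝ} (r0 : 0 < r) (r1 : r < 1) : Continuous fun θ => cay (X r θ) :=
  cay_smooth.continuousOn.comp_continuous (cX' r) (X_D r0 r1)

lemma cpt {r : ℝ} (r0 : 0 < r) (r1 : r < 1) (z : ℂ) : Continuous fun θ => pt z (X r θ) :=
  continuous_const.add (continuous_const.mul (ccay r0 r1))

/-- averaging over circles preserves the area -/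
lemma fubH {r : ℝ} (r0 : 0 < r) (r1 : r < 1) {w : ℂ → ℝ≥0∞} (mw : Measurable w) :
    ∫⁻ z, (∫⁻ θ, w (pt z (X r θ)) ∂cu) ∂hm = ∫⁻ z, w z ∂hm := by
  have pp := Real.pi_pos
  have cc := ccay r0 r1
  have mp : Measurable (Function.uncurry fun (z : ℂ) (θ : ℝ) => w (pt z (X r θ))) := by
    refine mw.comp ?_
    have : Measurable fun p : ℂ × ℝ => ((p.1.re : ℂ) + p.1.im * cay (X r p.2)) :=
      (Complex.measurable_ofReal.comp (Complex.measurable_re.comp measurable_fst)).add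
        ((Complex.measurable_ofReal.comp (Complex.measurable_im.comp measurable_fst)).mul
          (cc.measurable.comp measurable_snd))
    exact this
  have bint : ∫⁻ θ, ENNReal.ofReal (cay (X r θ)).im ∂cu = 1 := by
    have ci : Continuous fun θ => (cay (X r θ)).im := Complex.continuous_im.comp cc
    rw [← ofReal_integral_eq_lintegral_ofReal (cu_cont ci)
      (ae_of_all _ fun θ => (cay_im_pos (X_D r0 r1 θ)).le), cu_int, mv_im r0 r1]
    rw [inv_mul_cancel₀ (by positivity), ENNReal.ofReal_one]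
  calc ∫⁻ z, (∫⁻ θ, w (pt z (X r θ)) ∂cu) ∂hm = ∫⁻ θ, (∫⁻ z, w (pt z (X r θ)) ∂hm) ∂cu := by
        have sf : SFinite hm := by unfold hm; infer_instance
        exact lintegral_lintegral_swap mp.aemeasurable
    _ = ∫⁻ θ, ENNReal.ofReal (cay (X r θ)).im * (∫⁻ z, w z ∂hm) ∂cu := by
        refine lintegral_congr fun θ => ?_
        have m1 : Measurable fun z => w (pt z (X r θ)) :=
          mp.comp (measurable_id.prodMk measurable_const)
        unfold hm
        rw [lintegral_withDensity_eq_lintegral_mul _ kd_meas m1,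
          lintegral_withDensity_eq_lintegral_mul _ kd_meas mw]
        exact cov (cay_im_pos (X_D r0 r1 θ)) mw
    _ = ∫⁻ z, w z ∂hm := by
        have mb : Measurable fun θ => ENNReal.ofReal (cay (X r θ)).im :=
          (Complex.measurable_im.comp cc.measurable).ennreal_ofReal
        rw [lintegral_mul_const _ mb, bint, one_mul]

/-- averaging a continuous function over circles, compact sets -/
lemma avgC {K Q : Set ℂ} (mK : MeasurableSet K) (hQ : IsCompact Q) {r : ℝ}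
    (r0 : 0 < r) (r1 : r < 1) (hK : ∀ z ∈ K, ∀ w, ‖w‖ ≤ r → pt z w ∈ Q)
    {f : ℂ → ℝ≥0∞} {g : ℂ → ℝ} (g0 : ∀ z ∈ Q, 0 ≤ g z) (cg : ContinuousOn g Q)
    (h : ∀ z ∈ K, f z ≤ ENNReal.ofReal (∫ θ, g (pt z (X r θ)) ∂cu)) :
    ∫⁻ z in K, f z ∂hm ≤ ∫⁻ z in Q, ENNReal.ofReal (g z) ∂hm := by
  obtain ⟨w, hw⟩ : ∃ w : ℂ → ℝ≥0∞, w = Q.indicator fun z => ENNReal.ofReal (g z) := ⟨_, rfl⟩
  have mQ := hQ.measurableSet
  have mw : Measurable w := by
    rw [hw]
    have h1 : Measurable (Q.indicator g) := by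
      classical
      rw [← Set.piecewise_eq_indicator]
      exact ContinuousOn.measurable_piecewise cg continuous_const.continuousOn mQ
    have h2 : (Q.indicator fun z => ENNReal.ofReal (g z)) =
        fun z => ENNReal.ofReal (Q.indicator g z) := by
      funext z
      by_cases hz : z ∈ Q
      · rw [Set.indicator_of_mem hz, Set.indicator_of_mem hz]
      · rw [Set.indicator_of_notMem hz, Set.indicator_of_notMem hz, ENNReal.ofReal_zero]
    rw [h2]
    exact h1.ennreal_ofReal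
  have nX : ∀ θ, ‖X r θ‖ ≤ r := fun θ => by rw [norm_X, abs_of_pos r0]
  have ptw : ∀ z ∈ K, f z ≤ ∫⁻ θ, w (pt z (X r θ)) ∂cu := by
    intro z hz
    have inQ : ∀ θ, pt z (X r θ) ∈ Q := fun θ => hK z hz _ (nX θ)
    have c1 : Continuous fun θ => g (pt z (X r θ)) := cg.comp_continuous (cpt r0 r1 z) inQ
    have e : ∫⁻ θ, w (pt z (X r θ)) ∂cu = ∫⁻ θ, ENNReal.ofReal (g (pt z (X r θ))) ∂cu := by
      refine lintegral_congr fun θ => ?_
      rw [hw, Set.indicator_of_mem (inQ θ)]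
    rw [e, ← ofReal_integral_eq_lintegral_ofReal (cu_cont c1) (ae_of_all _ fun θ => g0 _ (inQ θ))]
    exact h z hz
  calc ∫⁻ z in K, f z ∂hm ≤
      ∫⁻ z in K, (∫⁻ θ, w (pt z (X r θ)) ∂cu) ∂hm := setLIntegral_mono' mK ptw
    _ ≤ ∫⁻ z, (∫⁻ θ, w (pt z (X r θ)) ∂cu) ∂hm := setLIntegral_le_lintegral _ _
    _ = ∫⁻ z, w z ∂hm := fubH r0 r1 mw
    _ = ∫⁻ z in Q, ENNReal.ofReal (g z) ∂hm := by
        rw [hw, lintegral_indicator mQ]

lemma log_bd {r : ℝ} (r0 : 0 < r) (r1 : r ≤ 1 / 2) (θ : ℝ) :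
    |Real.log (cay (X r θ)).im| ≤ 4 * r := by
  have hp := cay_im_pos (X_D r0 (by linarith) θ)
  have s1 := Real.sin_le_one θ
  have s2 := Real.neg_one_le_sin θ
  have d1 : (1 - r) ^ 2 ≤ 1 - 2 * (r * Real.sin θ) + r ^ 2 := by nlinarith
  have d2 : 1 - 2 * (r * Real.sin θ) + r ^ 2 ≤ (1 + r) ^ 2 := by nlinarith
  have d0 : 0 < (1 - r) ^ 2 := by
    have : 0 < 1 - r := by linarith
    positivity
  have e := im_formula r θ
  rw [abs_le]
  constructor
  · have h1 := Real.one_sub_inv_le_log_of_pos hp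
    have h2 : ((cay (X r θ)).im)⁻¹ ≤ 1 + 4 * r := by
      rw [e, inv_div, div_le_iff₀ (by nlinarith)]
      have h3 : (1 + r) ≤ (1 + 4 * r) * (1 - r) := by nlinarith
      have h4 : (1 + r) * (1 + r) ≤ (1 + 4 * r) * (1 - r) * (1 + r) :=
        mul_le_mul_of_nonneg_right h3 (by linarith)
      nlinarith
    linarith
  · have h1 := Real.log_le_sub_one_of_pos hp
    have h2 : (cay (X r θ)).im ≤ 1 + 4 * r := by
      rw [e, div_le_iff₀ (by linarith)]
      have h3 : (1 + r) ≤ (1 + 4 * r) * (1 - r) := by nlinarith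
      have h4 : (1 + r) * (1 - r) ≤ (1 + 4 * r) * (1 - r) * (1 - r) :=
        mul_le_mul_of_nonneg_right h3 (by linarith)
      have h5 : (1 + 4 * r) * (1 - r) ^ 2 ≤ (1 + 4 * r) * (1 - 2 * (r * Real.sin θ) + r ^ 2) :=
        mul_le_mul_of_nonneg_left d1 (by linarith)
      nlinarith
    linarith

lemma ph_low (s : ℝ) {r : ℝ} (r0 : 0 < r) (r1 : r ≤ 1 / 2) :
    1 - 8 * (s * r) ^ 2 - 4 * r ≤ ph s r := by
  have pp := Real.pi_pos
  have cc := ccay r0 (by linarith : r < 1)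
  have ce : Continuous fun θ => ef s (cay (X r θ)) :=
    (ef_smooth s).continuousOn.comp_continuous cc fun θ => cay_im_pos (X_D r0 (by linarith) θ)
  have h : ∫ θ in (-Real.pi)..Real.pi, (1 - 8 * (s * r) ^ 2 - 4 * r) ≤
      ∫ θ in (-Real.pi)..Real.pi, ef s (cay (X r θ)) := by
    refine intervalIntegral.integral_mono_on (by linarith)
      (continuous_const.intervalIntegrable _ _) (ce.intervalIntegrable _ _) fun θ _ => ?_
    have hL := log_bd r0 r1 θ
    unfold ef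
    obtain ⟨L, hLd⟩ : ∃ L, L = Real.log (cay (X r θ)).im := ⟨_, rfl⟩
    rw [← hLd] at hL ⊢
    have h1 : 1 - (s * L) ^ 2 / 2 ≤ Real.cos (s * L) := Real.one_sub_sq_div_two_le_cos
    have h2 : |Real.exp (L / 2) - 1| ≤ 2 * |L / 2| := Real.abs_exp_sub_one_le (by
      rw [abs_div, abs_two]; linarith)
    have h3 : |L / 2| ≤ 2 * r := by rw [abs_div, abs_two]; linarith
    have h4 : (s * L) ^ 2 ≤ 16 * (s * r) ^ 2 := by
      have : L ^ 2 ≤ (4 * r) ^ 2 := sq_le_sq' (abs_le.1 hL).1 (abs_le.1 hL).2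
      nlinarith [sq_nonneg s]
    have h5 : |Real.cos (s * L)| ≤ 1 := Real.abs_cos_le_one _
    have h6 : |(Real.exp (L / 2) - 1) * Real.cos (s * L)| ≤ 4 * r := by
      rw [abs_mul]
      calc |Real.exp (L / 2) - 1| * |Real.cos (s * L)| ≤ |Real.exp (L / 2) - 1| * 1 := by gcongr
        _ ≤ 4 * r := by linarith
    have h7 := (abs_le.1 h6).1
    have h8 : Real.exp (L / 2) * Real.cos (s * L) =
        Real.cos (s * L) + (Real.exp (L / 2) - 1) * Real.cos (s * L) := by ring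
    rw [h8]
    linarith
  rw [intervalIntegral.integral_const, smul_eq_mul] at h
  unfold ph I0
  rw [inv_mul_eq_div, le_div_iff₀ (by positivity)]
  linarith

/-- a solution of the eigenvalue equation -/
structure Sol (Ω : Set ℂ) (t : ℝ) (f : ℂ → ℝ) : Prop where
  sm : ContDiffOn ℝ ∞ f Ω
  eq : ∀ z ∈ Ω, -(z.im ^ 2 * lp f z) = (1 / 4 + t ^ 2) * f z

/-- **slow eigenfunctions hardly change over short circles, in mean square** -/
theorem slow {Ω Q Q' : Set ℂ} (hΩ : IsOpen Ω) (hH : Ω ⊆ HH) (hQ : IsCompact Q)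
    (hQ' : IsCompact Q') (QQ : Q ⊆ Q') (QΩ : Q' ⊆ Ω) {ψ : ℂ → ℝ} (cψ : Continuous ψ)
    (ψ0 : ∀ z, 0 ≤ ψ z) (sψ : ∀ z, z ∉ Q → ψ z = 0) {s : ℝ} {g : ℂ → ℝ} (hg : Sol Ω s g)
    {r ε : ℝ} (r0 : 0 < r) (r1 : r ≤ 1 / 2)
    (hK : ∀ z ∈ Q, ∀ w, ‖w‖ ≤ r → pt z w ∈ Q' ∧ ψ z ≤ ψ (pt z w) + ε)
    (ε0 : 0 ≤ ε) (hβ : 1 / 2 ≤ ph s r) :
    ∫⁻ z in Q, ENNReal.ofReal (ψ z * ∫ θ, (g z - g (pt z (X r θ))) ^ 2 ∂cu) ∂hm ≤
      ENNReal.ofReal ((2 - 2 * ph s r) * (∫ z in Q, ψ z * g z ^ 2 ∂hm) +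
        ε * ∫ z in Q', g z ^ 2 ∂hm) := by
  have pp := Real.pi_pos
  have r1' : r < 1 := by linarith
  have nX : ∀ θ, ‖X r θ‖ ≤ r := fun θ => by rw [norm_X, abs_of_pos r0]
  have cgQ' : ContinuousOn g Q' := hg.sm.continuousOn.mono QΩ
  have cgQ : ContinuousOn g Q := cgQ'.mono QQ
  -- local finiteness
  have fin : ∀ {K : Set ℂ}, IsCompact K → K ⊆ HH → IsFiniteMeasure (hm.restrict K) := by
    intro K hKc hKH
    refine ⟨?_⟩
    rw [Measure.restrict_apply_univ]
    unfold hm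
    rw [withDensity_apply _ hKc.measurableSet]
    have ck : ContinuousOn (fun z : ℂ => 1 / z.im ^ 2) K :=
      continuousOn_const.div (Complex.continuous_im.continuousOn.pow 2) fun z hz => by
        have : 0 < z.im := hKH hz
        positivity
    have i := ck.integrableOn_compact hKc (μ := volume)
    exact i.lintegral_lt_top
  have fQ := fin hQ (QQ.trans (QΩ.trans hH))
  have fQ' := fin hQ' (QΩ.trans hH)
  have intc : ∀ {K : Set ℂ} {k : ℂ → ℝ}, IsCompact K → IsFiniteMeasure (hm.restrict K) →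
      ContinuousOn k K → Integrable k (hm.restrict K) := by
    intro K k hKc hf hk
    obtain ⟨C, hC⟩ := hKc.exists_bound_of_continuousOn hk
    exact Integrable.of_bound (hk.aestronglyMeasurable hKc.measurableSet) C
      ((ae_restrict_iff' hKc.measurableSet).2 (ae_of_all _ hC))
  obtain ⟨β, hβd⟩ : ∃ β, β = ph s r := ⟨_, rfl⟩
  rw [← hβd] at hβ ⊢
  have e1 : ∀ z ∈ Q, ψ z * ∫ θ, (g z - g (pt z (X r θ))) ^ 2 ∂cu =
      ψ z * (∫ θ, g (pt z (X r θ)) ^ 2 ∂cu) - (2 * β - 1) * (ψ z * g z ^ 2) := by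
    intro z hz
    have inQ : ∀ θ, pt z (X r θ) ∈ Q' := fun θ => (hK z hz _ (nX θ)).1
    have c1 : Continuous fun θ => g (pt z (X r θ)) := cgQ'.comp_continuous (cpt r0 r1' z) inQ
    have m := mv hΩ hH hg.sm hg.eq (hH (QΩ (QQ hz))) r0 r1'
      (fun w hw => QΩ (hK z hz w hw).1)
    have e : ∫ θ, g (pt z (X r θ)) ∂cu = β * g z := by
      rw [cu_int, m, hβd]
      field_simp
    have e2 : ∫ θ, (g z - g (pt z (X r θ))) ^ 2 ∂cu =
        g z ^ 2 - 2 * g z * (∫ θ, g (pt z (X r θ)) ∂cu) + ∫ θ, g (pt z (X r θ)) ^ 2 ∂cu := by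
      have h1 : ∀ θ, (g z - g (pt z (X r θ))) ^ 2 =
          g z ^ 2 - 2 * g z * g (pt z (X r θ)) + g (pt z (X r θ)) ^ 2 := fun θ => by ring
      simp only [h1]
      have j1 : Integrable (fun _ : ℝ => g z ^ 2) cu := integrable_const _
      have j2 : Integrable (fun θ => 2 * g z * g (pt z (X r θ))) cu := (cu_cont c1).const_mul _
      have j3 : Integrable (fun θ => g (pt z (X r θ)) ^ 2) cu := cu_cont (c1.pow 2)
      have j4 : Integrable (fun θ => g z ^ 2 - 2 * g z * g (pt z (X r θ))) cu := j1.sub j2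
      rw [integral_add j4 j3, integral_sub j1 j2,
        integral_const_mul, integral_const]
      simp
    rw [e2, e]
    ring
  have A : ∫⁻ z in Q, (ENNReal.ofReal (ψ z * ∫ θ, (g z - g (pt z (X r θ))) ^ 2 ∂cu) +
      ENNReal.ofReal ((2 * β - 1) * (ψ z * g z ^ 2))) ∂hm ≤
      ∫⁻ z in Q', ENNReal.ofReal (ψ z * g z ^ 2 + ε * g z ^ 2) ∂hm := by
    refine avgC hQ.measurableSet hQ' r0 r1' (fun z hz w hw => (hK z hz w hw).1)
      (fun z _ => by have := ψ0 z; positivity)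
      ((cψ.continuousOn.mul (cgQ'.pow 2)).add (continuousOn_const.mul (cgQ'.pow 2))) ?_
    intro z hz
    have inQ : ∀ θ, pt z (X r θ) ∈ Q' := fun θ => (hK z hz _ (nX θ)).1
    have c1 : Continuous fun θ => g (pt z (X r θ)) := cgQ'.comp_continuous (cpt r0 r1' z) inQ
    have c2 : Continuous fun θ => ψ (pt z (X r θ)) := cψ.comp (cpt r0 r1' z)
    have n1 : 0 ≤ ψ z * ∫ θ, (g z - g (pt z (X r θ))) ^ 2 ∂cu :=
      mul_nonneg (ψ0 z) (integral_nonneg fun θ => sq_nonneg _)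
    have n2 : 0 ≤ (2 * β - 1) * (ψ z * g z ^ 2) :=
      mul_nonneg (by linarith) (mul_nonneg (ψ0 z) (sq_nonneg _))
    rw [← ENNReal.ofReal_add n1 n2, e1 z hz, sub_add_cancel]
    refine ENNReal.ofReal_le_ofReal ?_
    rw [← integral_const_mul]
    refine integral_mono ((cu_cont (c1.pow 2)).const_mul _)
      (cu_cont ((c2.mul (c1.pow 2)).add (continuous_const.mul (c1.pow 2)))) fun θ => ?_
    have h1 := (hK z hz _ (nX θ)).2
    show ψ z * g (pt z (X r θ)) ^ 2 ≤ ψ (pt z (X r θ)) * g (pt z (X r θ)) ^ 2 +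
      ε * g (pt z (X r θ)) ^ 2
    rw [← add_mul]
    exact mul_le_mul_of_nonneg_right h1 (sq_nonneg _)
  have m1 : AEMeasurable (fun z => ENNReal.ofReal ((2 * β - 1) * (ψ z * g z ^ 2)))
      (hm.restrict Q) := by
    have : ContinuousOn (fun z => (2 * β - 1) * (ψ z * g z ^ 2)) Q :=
      continuousOn_const.mul (cψ.continuousOn.mul (cgQ.pow 2))
    exact (this.aestronglyMeasurable hQ.measurableSet).aemeasurable.ennreal_ofReal
  rw [lintegral_add_right' _ m1] at A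
  have iψ : Integrable (fun z => ψ z * g z ^ 2) (hm.restrict Q) :=
    intc hQ fQ (cψ.continuousOn.mul (cgQ.pow 2))
  have ig : Integrable (fun z => g z ^ 2) (hm.restrict Q') := intc hQ' fQ' (cgQ'.pow 2)
  have iψ' : Integrable (fun z => ψ z * g z ^ 2) (hm.restrict Q') :=
    intc hQ' fQ' (cψ.continuousOn.mul (cgQ'.pow 2))
  have n3 : 0 ≤ ∫ z in Q, ψ z * g z ^ 2 ∂hm :=
    integral_nonneg fun z => mul_nonneg (ψ0 z) (sq_nonneg _)
  have n4 : 0 ≤ ∫ z in Q', g z ^ 2 ∂hm := integral_nonneg fun z => sq_nonneg _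
  have eB : ∫⁻ z in Q, ENNReal.ofReal ((2 * β - 1) * (ψ z * g z ^ 2)) ∂hm =
      ENNReal.ofReal ((2 * β - 1) * ∫ z in Q, ψ z * g z ^ 2 ∂hm) := by
    rw [← integral_const_mul, ofReal_integral_eq_lintegral_ofReal (iψ.const_mul _)
      (ae_of_all _ fun z => mul_nonneg (by linarith) (mul_nonneg (ψ0 z) (sq_nonneg _)))]
  have eC : ∫⁻ z in Q', ENNReal.ofReal (ψ z * g z ^ 2 + ε * g z ^ 2) ∂hm =
      ENNReal.ofReal ((∫ z in Q, ψ z * g z ^ 2 ∂hm) + ε * ∫ z in Q', g z ^ 2 ∂hm) := by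
    have j5 : Integrable (fun z => ψ z * g z ^ 2 + ε * g z ^ 2) (hm.restrict Q') :=
      iψ'.add (ig.const_mul ε)
    rw [← ofReal_integral_eq_lintegral_ofReal j5
      (ae_of_all _ fun z => add_nonneg (mul_nonneg (ψ0 z) (sq_nonneg _))
        (mul_nonneg ε0 (sq_nonneg _))),
      integral_add iψ' (ig.const_mul ε), integral_const_mul]
    congr 2
    have : ∫ z in Q', ψ z * g z ^ 2 ∂hm = ∫ z in Q, ψ z * g z ^ 2 ∂hm := by
      refine setIntegral_eq_of_subset_of_forall_diff_eq_zero hQ'.measurableSet QQ ?_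
      intro z hz
      rw [sψ z hz.2, zero_mul]
    exact this
  rw [eB, eC] at A
  have F : ENNReal.ofReal ((2 * β - 1) * ∫ z in Q, ψ z * g z ^ 2 ∂hm) ≠ ⊤ :=
    ENNReal.ofReal_ne_top
  have G := ENNReal.le_sub_of_add_le_right F A
  rw [← ENNReal.ofReal_sub _ (mul_nonneg (by linarith) n3)] at G
  refine G.trans (ENNReal.ofReal_le_ofReal (le_of_eq ?_))
  ring

end

end Pool.Agent.X127.HY
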